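import Mathlib

/-!
# Ordered vector spaces over the rationals: order preserving retractions on finite sets
-/

set_option autoImplicit false

namespace Pool.Agent.Q222.DS

open Finset

section vs

variable {D : Type*} [AddCommGroup D] [LinearOrder D] [IsOrderedAddMonoid D] [Module ℚ D]
  [IsStrictOrderedModule ℚ D]

/-- cuts of finite sets are realised in nontrivial subspaces -/
lemma cut_exists (U : Submodule ℚ D) (hU : U ≠ ⊥) (B : Finset D) (hB : ∀ β ∈ B, β ∈ U) (b : D) :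
    ∃ c ∈ U, ∀ β ∈ B, (β < b → β < c) ∧ (b < β → c < β) := by
  classical
  obtain ⟨w, hw, hw0⟩ := Submodule.exists_mem_ne_zero_of_ne_bot hU
  obtain ⟨v, hv, hv0⟩ : ∃ v ∈ U, 0 < v := by
    rcases lt_or_gt_of_ne hw0 with h | h
    · exact ⟨-w, U.neg_mem hw, neg_pos.2 h⟩
    · exact ⟨w, hw, h⟩
  have : DenselyOrdered U := by
    refine ⟨fun x y hxy => ?_⟩
    have hxy' : (x : D) < y := hxy
    have h0 : (0 : D) < (y : D) - x := sub_pos.2 hxy'
    have h1 : (0 : D) < (1 / 2 : ℚ) • ((y : D) - x) := smul_pos (by norm_num) h0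
    refine ⟨⟨(x : D) + (1 / 2 : ℚ) • ((y : D) - x), U.add_mem x.2 (U.smul_mem _ (U.sub_mem y.2 x.2))⟩,
      ?_, ?_⟩
    · show (x : D) < (x : D) + (1 / 2 : ℚ) • ((y : D) - x)
      exact lt_add_of_pos_right _ h1
    · show (x : D) + (1 / 2 : ℚ) • ((y : D) - x) < y
      have h2 : (x : D) + (1 / 2 : ℚ) • ((y : D) - x) + (1 / 2 : ℚ) • ((y : D) - x) = y := by
        rw [add_assoc, ← add_smul]; norm_num
      calc (x : D) + (1 / 2 : ℚ) • ((y : D) - x) <
          (x : D) + (1 / 2 : ℚ) • ((y : D) - x) + (1 / 2 : ℚ) • ((y : D) - x) :=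
            lt_add_of_pos_right _ h1
        _ = y := h2
  have : NoMinOrder U := ⟨fun x => ⟨x - ⟨v, hv⟩, by
    show ((x - ⟨v, hv⟩ : U) : D) < x
    simpa using hv0⟩⟩
  have : NoMaxOrder U := ⟨fun x => ⟨x + ⟨v, hv⟩, by
    show (x : D) < ((x + ⟨v, hv⟩ : U) : D)
    simpa using hv0⟩⟩
  obtain ⟨m, hm1, hm2⟩ := Order.exists_between_finsets
    (Finset.subtype (· ∈ U) (B.filter (· < b))) (Finset.subtype (· ∈ U) (B.filter (b < ·)))
    (by
      intro x hx y hy
      rw [Finset.mem_subtype, Finset.mem_filter] at hx hy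
      exact (lt_trans hx.2 hy.2 : (x : D) < y))
  refine ⟨m, m.2, fun β hβ => ⟨fun h => ?_, fun h => ?_⟩⟩
  · exact hm1 ⟨β, hB β hβ⟩ (by rw [Finset.mem_subtype, Finset.mem_filter]; exact ⟨hβ, h⟩)
  · exact hm2 ⟨β, hB β hβ⟩ (by rw [Finset.mem_subtype, Finset.mem_filter]; exact ⟨hβ, h⟩)

/-- one step: remove one generator -/
lemma step_retract (U : Submodule ℚ D) (hU : U ≠ ⊥) (b : D) (s : Finset D)
    (hs : ∀ x ∈ s, x ∈ U ⊔ Submodule.span ℚ {b}) :
    ∃ h : D →ₗ[ℚ] D, (∀ w ∈ U, h w = w) ∧ (∀ x ∈ s, h x ∈ U) ∧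
      ∀ x ∈ s, ∀ y ∈ s, x < y → h x < h y := by
  classical
  by_cases hb : b ∈ U
  · refine ⟨LinearMap.id, fun w _ => rfl, fun x hx => ?_, fun x _ y _ h => h⟩
    have h1 : U ⊔ Submodule.span ℚ {b} = U := by
      rw [sup_eq_left, Submodule.span_singleton_le_iff_mem]
      exact hb
    have := hs x hx
    rwa [h1] at this
  obtain ⟨φ0, hφ0, hφU⟩ := Submodule.exists_le_ker_of_notMem hb
  set φ : D →ₗ[ℚ] ℚ := (φ0 b)⁻¹ • φ0 with hφ
  have hφb : φ b = 1 := by
    simp [hφ, hφ0]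
  have hφU' : ∀ w ∈ U, φ w = 0 := by
    intro w hw
    have : φ0 w = 0 := by
      have := hφU hw
      simpa using this
    simp [hφ, this]
  have hsub : ∀ x ∈ s, x - φ x • b ∈ U := by
    intro x hx
    obtain ⟨u, hu, z, hz, rfl⟩ := Submodule.mem_sup.1 (hs x hx)
    obtain ⟨t, rfl⟩ := Submodule.mem_span_singleton.1 hz
    rw [map_add, hφU' u hu, map_smul, hφb]
    simpa using hu
  set B : Finset D := (s ×ˢ s).image
    (fun p => -((φ p.2 - φ p.1)⁻¹ • (p.2 - p.1 - (φ p.2 - φ p.1) • b))) with hBdef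
  have hB : ∀ β ∈ B, β ∈ U := by
    intro β hβ
    rw [hBdef, Finset.mem_image] at hβ
    obtain ⟨⟨x, y⟩, hxy, rfl⟩ := hβ
    rw [Finset.mem_product] at hxy
    refine U.neg_mem (U.smul_mem _ ?_)
    have := U.sub_mem (hsub y hxy.2) (hsub x hxy.1)
    have h2 : y - φ y • b - (x - φ x • b) = y - x - (φ y - φ x) • b := by
      rw [sub_smul]; abel
    rwa [h2] at this
  obtain ⟨c, hc, hcut⟩ := cut_exists U hU B hB b
  set g : D →ₗ[ℚ] D := LinearMap.id - (LinearMap.toSpanSingleton ℚ D (b - c)).comp φ with hg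
  have hgx : ∀ x, g x = x - φ x • (b - c) := fun x => by simp [hg]
  refine ⟨g, ?_, ?_, ?_⟩
  · intro w hw
    simp [hgx, hφU' w hw]
  · intro x hx
    have h1 : g x = (x - φ x • b) + φ x • c := by
      rw [hgx, smul_sub]
      abel
    rw [h1]
    exact U.add_mem (hsub x hx) (U.smul_mem _ hc)
  · intro x hx y hy hxy
    rw [← sub_pos]
    set t := φ y - φ x with ht
    set d := y - x - t • b with hd
    have hyx : y - x = d + t • b := by rw [hd]; abel
    have h1 : g y - g x = d + t • c := by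
      rw [hgx, hgx, hd, ht, smul_sub, smul_sub, sub_smul, sub_smul]
      abel
    rw [h1]
    have hpos : 0 < d + t • b := by rw [← hyx]; exact sub_pos.2 hxy
    have hmem : -(t⁻¹ • d) ∈ B := by
      rw [hBdef, Finset.mem_image]
      exact ⟨(x, y), Finset.mem_product.2 ⟨hx, hy⟩, rfl⟩
    rcases lt_trichotomy t 0 with h0 | h0 | h0
    · -- t < 0
      have h2 : b < -(t⁻¹ • d) := by
        have h3 : t⁻¹ • (d + t • b) < 0 := smul_neg_of_neg_of_pos (inv_lt_zero.2 h0) hpos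
        rw [smul_add, smul_smul, inv_mul_cancel₀ h0.ne, one_smul] at h3
        exact lt_neg_iff_add_neg.2 (by rwa [add_comm] at h3)
      have h4 := (hcut _ hmem).2 h2
      have h5 : t • -(t⁻¹ • d) < t • c := by
        exact smul_lt_smul_of_neg_left h4 h0
      rw [smul_neg, smul_smul, mul_inv_cancel₀ h0.ne, one_smul] at h5
      have := neg_lt_iff_pos_add.1 h5
      rwa [add_comm]
    · rw [h0, zero_smul, add_zero] at hpos ⊢
      exact hpos
    · have h2 : -(t⁻¹ • d) < b := by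
        have h3 : 0 < t⁻¹ • (d + t • b) := smul_pos (inv_pos.2 h0) hpos
        rw [smul_add, smul_smul, inv_mul_cancel₀ h0.ne', one_smul] at h3
        exact neg_lt_iff_pos_add'.2 h3
      have h4 := (hcut _ hmem).1 h2
      have h5 : t • -(t⁻¹ • d) < t • c := smul_lt_smul_of_pos_left h4 h0
      rw [smul_neg, smul_smul, mul_inv_cancel₀ h0.ne', one_smul] at h5
      exact neg_lt_iff_pos_add'.1 h5

/-- finitely many generators -/
lemma retract_aux (W : Submodule ℚ D) (hW : W ≠ ⊥) (B : Finset D) :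
    ∀ s : Finset D, (∀ x ∈ s, x ∈ W ⊔ Submodule.span ℚ (B : Set D)) →
    ∃ h : D →ₗ[ℚ] D, (∀ w ∈ W, h w = w) ∧ (∀ x ∈ s, h x ∈ W) ∧
      ∀ x ∈ s, ∀ y ∈ s, x < y → h x < h y := by
  classical
  induction B using Finset.induction_on with
  | empty =>
    intro s hs
    refine ⟨LinearMap.id, fun w _ => rfl, fun x hx => ?_, fun x _ y _ h => h⟩
    have := hs x hx
    simpa using this
  | insert b B hb ih =>
    intro s hs
    have hne : W ⊔ Submodule.span ℚ (B : Set D) ≠ ⊥ := by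
      intro h
      exact hW (le_bot_iff.1 (h ▸ le_sup_left))
    have hs' : ∀ x ∈ s, x ∈ (W ⊔ Submodule.span ℚ (B : Set D)) ⊔ Submodule.span ℚ {b} := by
      intro x hx
      have := hs x hx
      rw [Finset.coe_insert, Submodule.span_insert, ← sup_assoc] at this
      rwa [sup_assoc, sup_comm (Submodule.span ℚ (B : Set D)), ← sup_assoc]
    obtain ⟨h1, h1a, h1b, h1c⟩ := step_retract _ hne b s hs'
    obtain ⟨h2, h2a, h2b, h2c⟩ := ih (s.image h1) (by
      intro x hx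
      obtain ⟨y, hy, rfl⟩ := Finset.mem_image.1 hx
      exact h1b y hy)
    refine ⟨h2.comp h1, ?_, ?_, ?_⟩
    · intro w hw
      rw [LinearMap.comp_apply, h1a w (le_sup_left (a := W) hw), h2a w hw]
    · intro x hx
      exact h2b _ (Finset.mem_image_of_mem _ hx)
    · intro x hx y hy hxy
      exact h2c _ (Finset.mem_image_of_mem _ hx) _ (Finset.mem_image_of_mem _ hy) (h1c x hx y hy hxy)

lemma retract (W : Submodule ℚ D) (hW : W ≠ ⊥) (s : Finset D) :
    ∃ h : D →ₗ[ℚ] D, (∀ w ∈ W, h w = w) ∧ (∀ x ∈ s, h x ∈ W) ∧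
      ∀ x ∈ s, ∀ y ∈ s, x < y → h x < h y :=
  retract_aux W hW s s fun _ hx => le_sup_right (a := W) (Submodule.subset_span hx)

end vs

section grp

variable {G : Type*} [AddCommGroup G]

/-- natural linear combinations -/
def lc (v0 : G) (E : ℕ → G) (j : ℕ) (c : ℕ → ℕ) : G := ∑ y ∈ range j, c y • E y + c j • v0

lemma lc_add (v0 : G) (E : ℕ → G) (j : ℕ) (c d : ℕ → ℕ) :
    lc v0 E j (fun i => c i + d i) = lc v0 E j c + lc v0 E j d := by
  unfold lc
  simp only [add_smul, Finset.sum_add_distrib]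
  abel

/-- the subgroup generated by `v0` and the first `j` entries -/
def lcG (v0 : G) (E : ℕ → G) (j : ℕ) : AddSubgroup G where
  carrier := {g | ∃ c d : ℕ → ℕ, g + lc v0 E j d = lc v0 E j c}
  zero_mem' := ⟨0, 0, by simp⟩
  add_mem' := by
    rintro a b ⟨c, d, h⟩ ⟨c', d', h'⟩
    refine ⟨fun i => c i + c' i, fun i => d i + d' i, ?_⟩
    rw [lc_add, lc_add, ← h, ← h']
    abel
  neg_mem' := by
    rintro a ⟨c, d, h⟩
    refine ⟨d, c, ?_⟩
    rw [← h]
    abel

lemma mem_lcG {v0 : G} {E : ℕ → G} {j : ℕ} {g : G} :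
    g ∈ lcG v0 E j ↔ ∃ c d : ℕ → ℕ, g + lc v0 E j d = lc v0 E j c := Iff.rfl

lemma v0_mem_lcG (v0 : G) (E : ℕ → G) (j : ℕ) : v0 ∈ lcG v0 E j := by
  refine ⟨fun i => if i = j then 1 else 0, fun _ => 0, ?_⟩
  unfold lc
  rw [Finset.sum_eq_zero]
  · rw [Finset.sum_eq_zero]
    · simp
    · intro y hy
      show (if y = j then 1 else 0 : ℕ) • E y = 0
      rw [if_neg (Finset.mem_range.1 hy).ne, zero_smul]
  · intro y hy
    simp

lemma E_mem_lcG (v0 : G) (E : ℕ → G) {j i : ℕ} (hi : i < j) : E i ∈ lcG v0 E j := by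
  refine ⟨fun y => if y = i then 1 else 0, fun _ => 0, ?_⟩
  unfold lc
  rw [Finset.sum_eq_zero (fun y _ => by simp), Finset.sum_eq_single i]
  · show E i + (0 + (0 : ℕ) • v0) = (if i = i then 1 else 0 : ℕ) • E i +
      (if j = i then 1 else 0 : ℕ) • v0
    rw [if_pos rfl, if_neg hi.ne']
    simp
  · intro b _ hb
    show (if b = i then 1 else 0 : ℕ) • E b = 0
    rw [if_neg hb, zero_smul]
  · intro h
    exact absurd (Finset.mem_range.2 hi) h

lemma lc_mem {v0 : G} {E : ℕ → G} {j : ℕ} (U : AddSubgroup G) (h0 : v0 ∈ U)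
    (hE : ∀ i < j, E i ∈ U) (c : ℕ → ℕ) : lc v0 E j c ∈ U := by
  unfold lc
  exact U.add_mem (U.sum_mem fun y hy => U.nsmul_mem (hE y (Finset.mem_range.1 hy)) _)
    (U.nsmul_mem h0 _)

variable [LinearOrder G] [IsOrderedAddMonoid G]

lemma coe_q (m : ℕ) (g : G) :
    (m : ℚ) • (g : DivisibleHull G) = ((m • g : G) : DivisibleHull G) := by
  rw [Nat.cast_smul_eq_nsmul]
  exact (map_nsmul (DivisibleHull.coeAddMonoidHom (M := G)) m g).symm

lemma coe_z (m : ℤ) (g : G) :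
    (m : ℚ) • (g : DivisibleHull G) = ((m • g : G) : DivisibleHull G) := by
  rw [Int.cast_smul_eq_zsmul]
  exact (map_zsmul (DivisibleHull.coeAddMonoidHom (M := G)) m g).symm

lemma span_den (H : AddSubgroup G) (S : Set G) (hS : S ⊆ H) (w : DivisibleHull G)
    (hw : w ∈ Submodule.span ℚ ((fun g : G => (g : DivisibleHull G)) '' S)) :
    ∃ m : ℕ, 0 < m ∧ ∃ g ∈ H, (m : ℚ) • w = (g : DivisibleHull G) := by
  induction hw using Submodule.span_induction with
  | mem x hx =>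
    obtain ⟨g, hg, rfl⟩ := hx
    exact ⟨1, one_pos, g, hS hg, by simp⟩
  | zero => exact ⟨1, one_pos, 0, H.zero_mem, by simp⟩
  | add x y _ _ hx hy =>
    obtain ⟨m, hm, g, hg, h⟩ := hx
    obtain ⟨m', hm', g', hg', h'⟩ := hy
    refine ⟨m * m', Nat.mul_pos hm hm', m' • g + m • g',
      H.add_mem (H.nsmul_mem hg _) (H.nsmul_mem hg' _), ?_⟩
    have h1 : ((m * m' : ℕ) : ℚ) • x = ((m' • g : G) : DivisibleHull G) := by
      rw [← coe_q, ← h, smul_smul]; congr 1; push_cast; ring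
    have h2 : ((m * m' : ℕ) : ℚ) • y = ((m • g' : G) : DivisibleHull G) := by
      rw [← coe_q, ← h', smul_smul]; congr 1; push_cast; ring
    rw [DivisibleHull.coe_add, smul_add, h1, h2]
  | smul q x _ hx =>
    obtain ⟨m, hm, g, hg, h⟩ := hx
    refine ⟨q.den * m, Nat.mul_pos q.den_pos hm, q.num • g, H.zsmul_mem hg _, ?_⟩
    rw [← coe_z, ← h, smul_smul, smul_smul]
    congr 1
    have h3 : ((q.den : ℕ) : ℚ) * q = q.num := Rat.den_mul_eq_num q
    rw [← h3]
    push_cast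
    ring

/-- the integral replacement lemma -/
lemma rep (v0 : G) (hv0 : v0 ≠ 0) (E : ℕ → G) (n j : ℕ) (_hj : j ≤ n) :
    ∃ M : ℕ, 0 < M ∧ ∃ F : ℕ → G, (∀ i < n, i < j → F i = M • E i) ∧
      (∀ i < n, F i ∈ lcG v0 E j) ∧ (∀ i < n, ∀ k < n, E i < E k → F i < F k) ∧
      ∀ i < n, ∀ k < n, ∀ l < n, E i + E k = E l → F i + F k = F l := by
  classical
  set S : Set G := insert v0 (E '' {i | i < j}) with hS
  set W : Submodule ℚ (DivisibleHull G) :=
    Submodule.span ℚ ((fun g : G => (g : DivisibleHull G)) '' S) with hW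
  have hWne : W ≠ ⊥ := by
    intro h
    have h1 : (v0 : DivisibleHull G) ∈ W :=
      Submodule.subset_span ⟨v0, Set.mem_insert _ _, rfl⟩
    rw [h, Submodule.mem_bot] at h1
    have h2 : ((v0 : G) : DivisibleHull G) = ((0 : G) : DivisibleHull G) := by
      rw [h1]; simp
    exact hv0 (DivisibleHull.coe_inj.1 h2)
  obtain ⟨h, ha, hb, hc⟩ := retract W hWne ((range n).image (fun i => (E i : DivisibleHull G)))
  have hSH : S ⊆ lcG v0 E j := by
    rintro g (rfl | ⟨i, hi, rfl⟩)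
    · exact v0_mem_lcG _ _ _
    · exact E_mem_lcG _ _ hi
  have hmem : ∀ i < n, (E i : DivisibleHull G) ∈ (range n).image (fun i => (E i : DivisibleHull G)) :=
    fun i hi => Finset.mem_image.2 ⟨i, Finset.mem_range.2 hi, rfl⟩
  have h1 : ∀ i, ∃ m : ℕ, 0 < m ∧ (i < n → ∃ g ∈ lcG v0 E j,
      (m : ℚ) • h (E i : DivisibleHull G) = (g : DivisibleHull G)) := by
    intro i
    by_cases hi : i < n
    · obtain ⟨m, hm, g, hg, hh⟩ := span_den (lcG v0 E j) S hSH _ (hb _ (hmem i hi))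
      exact ⟨m, hm, fun _ => ⟨g, hg, hh⟩⟩
    · exact ⟨1, one_pos, fun h => absurd h hi⟩
  choose m hm hmg using h1
  set M := ∏ i ∈ range n, m i with hM
  have hMpos : 0 < M := Finset.prod_pos fun i _ => hm i
  have h2 : ∀ i, ∃ g : G, i < n → (g ∈ lcG v0 E j ∧
      (M : ℚ) • h (E i : DivisibleHull G) = (g : DivisibleHull G)) := by
    intro i
    by_cases hi : i < n
    · obtain ⟨g, hg, hh⟩ := hmg i hi
      obtain ⟨t, ht⟩ : m i ∣ M := Finset.dvd_prod_of_mem _ (Finset.mem_range.2 hi)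
      refine ⟨t • g, fun _ => ⟨(lcG v0 E j).nsmul_mem hg _, ?_⟩⟩
      rw [ht, mul_comm, Nat.cast_mul, mul_smul, hh, coe_q]
    · exact ⟨0, fun h => absurd h hi⟩
  choose F hF using h2
  refine ⟨M, hMpos, F, ?_, fun i hi => (hF i hi).1, ?_, ?_⟩
  · intro i hi hij
    have h3 := (hF i hi).2
    rw [ha _ (Submodule.subset_span ⟨E i, Set.mem_insert_of_mem _ ⟨i, hij, rfl⟩, rfl⟩),
      coe_q] at h3
    exact (DivisibleHull.coe_inj.1 h3).symm
  · intro i hi k hk hik
    have h3 : h (E i : DivisibleHull G) < h (E k : DivisibleHull G) :=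
      hc _ (hmem i hi) _ (hmem k hk) (by
        rw [DivisibleHull.mk_lt_mk]
        simpa using hik)
    have h4 : (M : ℚ) • h (E i : DivisibleHull G) < (M : ℚ) • h (E k : DivisibleHull G) :=
      smul_lt_smul_of_pos_left h3 (by exact_mod_cast hMpos)
    rw [(hF i hi).2, (hF k hk).2, DivisibleHull.mk_lt_mk] at h4
    simpa using h4
  · intro i hi k hk l hl hikl
    have h3 : (M : ℚ) • h (E i : DivisibleHull G) + (M : ℚ) • h (E k : DivisibleHull G) =
        (M : ℚ) • h (E l : DivisibleHull G) := by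
      rw [← smul_add, ← map_add, ← DivisibleHull.coe_add, hikl]
    rw [(hF i hi).2, (hF k hk).2, (hF l hl).2, ← DivisibleHull.coe_add] at h3
    exact DivisibleHull.coe_inj.1 h3

end grp

end Pool.Agent.Q222.DS
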