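import Pool.Agent.Q222.DS.Cin
import Pool.Agent.Q222.DS.Alg

/-!
# Computations in a copy of an ordered abelian group
-/

set_option autoImplicit false

namespace Pool.Agent.Q222.DS

open Encodable Finset

universe u

variable {P : Type u} [AddCommGroup P] [LinearOrder P]

/-- `O` computes the sum and the order of the copy `e` -/
structure Cop (O : Set (ℕ →. ℕ)) (e : ℕ ≃ P) : Prop where
  add : ComputableIn O (fun p : ℕ × ℕ => e.symm (e p.1 + e p.2))
  lt : PC O (fun p : ℕ × ℕ => e p.1 < e p.2)

section api

variable {α β : Type} [Primcodable α] [Primcodable β] {O : Set (ℕ →. ℕ)} {e : ℕ ≃ P}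

/-- computable functions into the copy -/
def CP (O : Set (ℕ →. ℕ)) (e : ℕ ≃ P) (u : α → P) : Prop := ComputableIn O (fun a => e.symm (u a))

lemma cp_e {f : α → ℕ} (hf : ComputableIn O f) : CP O e (fun a => e (f a)) := by
  unfold CP
  simpa using hf

lemma cp_const (c : P) : CP O e (fun _ : α => c) := cin_const (e.symm c)

lemma cp_comp {u : β → P} {f : α → β} (hu : CP O e u) (hf : ComputableIn O f) :
    CP O e (fun a => u (f a)) := cin_comp hu hf

lemma cp_congr {u v : α → P} (hu : CP O e u) (h : ∀ a, u a = v a) : CP O e v := by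
  have : u = v := funext h
  rwa [← this]

lemma cp_add (h : Cop O e) {u v : α → P} (hu : CP O e u) (hv : CP O e v) :
    CP O e (fun a => u a + v a) := by
  have := cin_comp h.add (cin_pair hu hv)
  unfold CP
  simpa using this

lemma cp_lt (h : Cop O e) {u v : α → P} (hu : CP O e u) (hv : CP O e v) :
    PC O (fun a => u a < v a) := by
  refine pc_of_eq (pc_comp h.lt (cin_pair hu hv)) fun a => ?_
  simp

lemma cp_eq {u v : α → P} (hu : CP O e u) (hv : CP O e v) : PC O (fun a => u a = v a) := by
  refine pc_of_eq (pc_eq hu hv) fun a => ?_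
  simp

lemma cp_sum (h : Cop O e) {u : α → ℕ → P} {b : α → ℕ} (hb : ComputableIn O b)
    (hu : CP O e (fun p : α × ℕ => u p.1 p.2)) : CP O e (fun a => ∑ y ∈ range (b a), u a y) := by
  have hstep : ComputableIn O (fun q : α × (ℕ × ℕ) => e.symm (e q.2.2 + u q.1 q.2.1)) :=
    cp_add h (cp_e (cin_snd (cin_snd cin_id)))
      (cp_comp (f := fun q : α × (ℕ × ℕ) => (q.1, q.2.1)) hu
        (cin_pair (cin_fst cin_id) (cin_fst (cin_snd cin_id))))
  have h1 := cin_rec hb (cin_const (α := α) (e.symm 0)) hstep
  have key : ∀ (a : α) (n : ℕ), (Nat.rec (e.symm 0) (fun y ih => e.symm (e ih + u a y)) n : ℕ) =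
      e.symm (∑ y ∈ range n, u a y) := by
    intro a n
    induction n with
    | zero => simp
    | succ n ih =>
      simp only [ih]
      rw [Finset.sum_range_succ]
      simp
  refine (congrArg (ComputableIn O) (funext fun a => ?_)).mpr h1
  exact (key a (b a)).symm

lemma cp_smul (h : Cop O e) {n : α → ℕ} {u : α → P} (hn : ComputableIn O n) (hu : CP O e u) :
    CP O e (fun a => n a • u a) := by
  refine cp_congr (cp_sum h (u := fun a _ => u a) hn (cp_comp hu (cin_fst cin_id))) fun a => ?_
  rw [Finset.sum_const, Finset.card_range]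

end api

end Pool.Agent.Q222.DS
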