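import Mathlib

/-!
# Typed computability relative to oracles: closure properties

`cin_comp`, `cin_pair` are adapted from `Pool.Agent.Helper539.DimOracle`.
-/

set_option autoImplicit false

namespace Pool.Agent.Q222.DS

open Encodable

section api

variable {α β γ σ : Type} [Primcodable α] [Primcodable β] [Primcodable γ] [Primcodable σ]
variable {O : Set (ℕ →. ℕ)}

lemma cin_comp {g : β → γ} {f : α → β} (hg : ComputableIn O g) (hf : ComputableIn O f) :
    ComputableIn O (fun a => g (f a)) := by
  have h : Nat.RecursiveIn O _ := Nat.RecursiveIn.comp (show Nat.RecursiveIn O _ from hg)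
    (show Nat.RecursiveIn O _ from hf)
  refine Nat.RecursiveIn.of_eq h (fun n => ?_)
  cases hd : (Encodable.decode (α := α) n) with
  | none => simp
  | some a => simp [Encodable.encodek]

lemma cin_pair {g : α → γ} {f : α → β} (hf : ComputableIn O f) (hg : ComputableIn O g) :
    ComputableIn O (fun a => (f a, g a)) := by
  have h : Nat.RecursiveIn O _ := Nat.RecursiveIn.pair (show Nat.RecursiveIn O _ from hf)
    (show Nat.RecursiveIn O _ from hg)
  refine Nat.RecursiveIn.of_eq h (fun n => ?_)
  cases hd : (Encodable.decode (α := α) n) with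
  | none => simp [Seq.seq]
  | some a => simp [Seq.seq, Encodable.encode_prod_val]

lemma cin_prim {g : β → γ} {f : α → β} (hg : Primrec g) (hf : ComputableIn O f) :
    ComputableIn O (fun a => g (f a)) := cin_comp hg.computableIn hf

lemma cin_prim₂ {g : β → γ → σ} {f : α → β} {f' : α → γ} (hg : Primrec₂ g)
    (hf : ComputableIn O f) (hf' : ComputableIn O f') :
    ComputableIn O (fun a => g (f a) (f' a)) :=
  cin_comp (g := fun p : β × γ => g p.1 p.2) (f := fun a => (f a, f' a))
    (Primrec.computableIn hg) (cin_pair hf hf')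

lemma cin_p {f : α → β} (h : Primrec f) : ComputableIn O f := h.computableIn

lemma cin_oracle (f : ℕ → ℕ) : ComputableIn {(f : ℕ →. ℕ)} f := by
  have h : RecursiveIn {(f : ℕ →. ℕ)} (f : ℕ →. ℕ) := RecursiveIn.oracle _ rfl
  exact h

lemma cin_const (c : β) : ComputableIn O (fun _ : α => c) := ComputableIn.const c

lemma cin_id : ComputableIn O (fun a : α => a) := ComputableIn.id

lemma cin_fst {f : α → β × γ} (h : ComputableIn O f) : ComputableIn O (fun a => (f a).1) :=
  cin_prim Primrec.fst h

lemma cin_snd {f : α → β × γ} (h : ComputableIn O f) : ComputableIn O (fun a => (f a).2) :=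
  cin_prim Primrec.snd h

lemma cin_nat {f : ℕ → ℕ} : ComputableIn O f ↔ Nat.RecursiveIn O (fun n => Part.some (f n)) := by
  unfold ComputableIn
  rw [RecursiveIn.iff_nat]

/-- primitive recursion -/
lemma cin_rec {f : α → ℕ} {g : α → σ} {h : α × (ℕ × σ) → σ} (hf : ComputableIn O f)
    (hg : ComputableIn O g) (hh : ComputableIn O h) :
    ComputableIn O (fun a => (Nat.rec (g a) (fun y ih => h (a, (y, ih))) (f a) : σ)) := by
  classical
  -- codes
  have hg' : Nat.RecursiveIn O (fun n => Part.bind (decode (α := α) n) fun a =>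
    Part.some (encode (g a))) := by
    refine Nat.RecursiveIn.of_eq (show Nat.RecursiveIn O _ from hg) fun n => ?_
    cases hd : (decode (α := α) n) with
    | none => simp
    | some a => simp
  have hh' : Nat.RecursiveIn O (fun n => Part.bind (decode (α := α × (ℕ × σ)) n) fun a =>
    Part.some (encode (h a))) := by
    refine Nat.RecursiveIn.of_eq (show Nat.RecursiveIn O _ from hh) fun n => ?_
    cases hd : (decode (α := α × (ℕ × σ)) n) with
    | none => simp
    | some a => simp
  have hprec := Nat.RecursiveIn.prec hg' hh'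
  have hpair : ComputableIn O (fun a : α => Nat.pair (encode a) (f a)) :=
    cin_prim₂ (g := fun x y : ℕ => Nat.pair x y) Primrec₂.natPair (cin_p Primrec.encode) hf
  have hc := Nat.RecursiveIn.comp hprec (show Nat.RecursiveIn O _ from hpair)
  refine Nat.RecursiveIn.of_eq hc fun n => ?_
  cases hd : (decode (α := α) n) with
  | none => simp
  | some a =>
    simp only [Part.coe_some, Part.bind_some, Part.map_some, encode_nat]
    show (Part.bind (Part.some (Nat.pair (encode a) (f a))) _) = _
    rw [Part.bind_some]
    simp only [Nat.unpair_pair, encodek]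
    generalize f a = m
    induction m with
    | zero => simp
    | succ m ih =>
      simp only [ih]
      simp

open Classical in
/-- decidable relative to `O` -/
def PC (O : Set (ℕ →. ℕ)) (P : α → Prop) : Prop := ComputableIn O (fun a => decide (P a))

lemma pc_comp {P : β → Prop} {f : α → β} (hP : PC O P) (hf : ComputableIn O f) :
    PC O (fun a => P (f a)) := cin_comp hP hf

lemma pc_of_eq {P Q : α → Prop} (hP : PC O P) (h : ∀ a, P a ↔ Q a) : PC O Q := by
  have : P = Q := funext fun a => propext (h a)
  rwa [← this]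

lemma pc_prim {P : α → Prop} [DecidablePred P] (h : PrimrecPred P) : PC O P := by
  obtain ⟨_, h2⟩ := h
  have h3 : ComputableIn O _ := cin_p h2
  unfold PC
  convert h3 using 2
  exact decide_eq_decide.2 Iff.rfl

lemma pc_and {P Q : α → Prop} (hP : PC O P) (hQ : PC O Q) : PC O (fun a => P a ∧ Q a) := by
  classical
  have h := cin_prim₂ (g := fun x y : Bool => x && y) Primrec.and hP hQ
  unfold PC
  convert h using 2
  simp [Bool.decide_and]

lemma pc_not {P : α → Prop} (hP : PC O P) : PC O (fun a => ¬ P a) := by
  classical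
  have h := cin_prim (g := fun x : Bool => !x) Primrec.not hP
  unfold PC
  convert h using 2
  simp

lemma pc_or {P Q : α → Prop} (hP : PC O P) (hQ : PC O Q) : PC O (fun a => P a ∨ Q a) :=
  pc_of_eq (pc_not (pc_and (pc_not hP) (pc_not hQ))) fun a => by tauto

lemma pc_imp {P Q : α → Prop} (hP : PC O P) (hQ : PC O Q) : PC O (fun a => P a → Q a) :=
  pc_of_eq (pc_or (pc_not hP) hQ) fun a => by tauto

lemma pc_iff {P Q : α → Prop} (hP : PC O P) (hQ : PC O Q) : PC O (fun a => (P a ↔ Q a)) :=
  pc_of_eq (pc_and (pc_imp hP hQ) (pc_imp hQ hP)) fun a => by tauto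

lemma pc_const (p : Prop) : PC O (fun _ : α => p) := by
  classical
  exact cin_const (decide p)

lemma pc_eq {f g : α → ℕ} (hf : ComputableIn O f) (hg : ComputableIn O g) :
    PC O (fun a => f a = g a) := by
  have h : PC O (fun p : ℕ × ℕ => p.1 = p.2) := pc_prim Primrec.eq
  exact pc_comp (f := fun a => (f a, g a)) h (cin_pair hf hg)

lemma pc_lt {f g : α → ℕ} (hf : ComputableIn O f) (hg : ComputableIn O g) :
    PC O (fun a => f a < g a) := by
  have h : PC O (fun p : ℕ × ℕ => p.1 < p.2) := pc_prim Primrec.nat_lt
  exact pc_comp (f := fun a => (f a, g a)) h (cin_pair hf hg)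

lemma pc_le {f g : α → ℕ} (hf : ComputableIn O f) (hg : ComputableIn O g) :
    PC O (fun a => f a ≤ g a) := by
  have h : PC O (fun p : ℕ × ℕ => p.1 ≤ p.2) := pc_prim Primrec.nat_le
  exact pc_comp (f := fun a => (f a, g a)) h (cin_pair hf hg)

open Classical in
lemma cin_ite {P : α → Prop} {f g : α → σ} (hP : PC O P) (hf : ComputableIn O f)
    (hg : ComputableIn O g) : ComputableIn O (fun a => if P a then f a else g a) := by
  have h1 : Primrec (fun p : Bool × (σ × σ) => cond p.1 p.2.1 p.2.2) :=
    Primrec.cond Primrec.fst (Primrec.fst.comp Primrec.snd) (Primrec.snd.comp Primrec.snd)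
  have h := cin_prim h1 (cin_pair hP (cin_pair hf hg))
  convert h using 2
  split_ifs with h <;> simp [h]

/-- bounded quantifier -/
lemma pc_ball {P : α → ℕ → Prop} {b : α → ℕ} (hb : ComputableIn O b)
    (hP : PC O (fun p : α × ℕ => P p.1 p.2)) : PC O (fun a => ∀ i < b a, P a i) := by
  classical
  have hstep : ComputableIn O (fun q : α × (ℕ × Bool) => (q.2.2 && decide (P q.1 q.2.1))) := by
    refine cin_prim₂ (g := fun x y : Bool => x && y) Primrec.and
      (cin_snd (cin_snd cin_id)) ?_
    exact cin_comp (f := fun q : α × (ℕ × Bool) => (q.1, q.2.1)) hP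
      (cin_pair (cin_fst cin_id) (cin_fst (cin_snd cin_id)))
  have h := cin_rec hb (cin_const (α := α) true) hstep
  have key : ∀ (a : α) (n : ℕ), (Nat.rec true (fun y ih => (ih && decide (P a y))) n : Bool) =
      decide (∀ i < n, P a i) := by
    intro a n
    induction n with
    | zero => simp
    | succ n ih =>
      have h2 : (∀ i < n + 1, P a i) ↔ ((∀ i < n, P a i) ∧ P a n) := by
        constructor
        · intro h3
          exact ⟨fun i hi => h3 i (by omega), h3 n (by omega)⟩
        · rintro ⟨h3, h4⟩ i hi
          rcases Nat.lt_succ_iff_lt_or_eq.1 hi with h5 | rfl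
          · exact h3 i h5
          · exact h4
      rw [decide_eq_decide.2 h2, Bool.decide_and, ← ih]
  refine (congrArg (ComputableIn O) (funext fun a => ?_)).mpr h
  show _ = (Nat.rec true (fun y ih => (ih && decide (P a y))) (b a) : Bool)
  rw [key]
  exact decide_eq_decide.2 Iff.rfl

lemma pc_bex {P : α → ℕ → Prop} {b : α → ℕ} (hb : ComputableIn O b)
    (hP : PC O (fun p : α × ℕ => P p.1 p.2)) : PC O (fun a => ∃ i < b a, P a i) := by
  refine pc_of_eq (pc_not (pc_ball (P := fun a i => ¬ P a i) hb (pc_not hP))) fun a => ?_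
  push Not
  rfl

open Classical in
/-- unbounded search -/
lemma cin_find {P : α → ℕ → Prop} (hP : PC O (fun p : α × ℕ => P p.1 p.2))
    (hex : ∀ a, ∃ n, P a n) : ComputableIn O (fun a => Nat.find (hex a)) := by
  have h1 : ComputableIn O (fun p : α × ℕ => if P p.1 p.2 then (0 : ℕ) else 1) :=
    cin_ite hP (cin_const _) (cin_const _)
  have h2 : Nat.RecursiveIn O (fun n => Part.bind (Part.ofOption (decode (α := α × ℕ) n))
      fun a : α × ℕ => Part.some (if P a.1 a.2 then (0 : ℕ) else 1)) := by
    refine Nat.RecursiveIn.of_eq (show Nat.RecursiveIn O _ from h1) fun n => ?_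
    cases hd : (decode (α := α × ℕ) n) with
    | none => simp
    | some a => simp
  have h3 := Nat.RecursiveIn.rfind h2
  have h4 := Nat.RecursiveIn.comp h3 (show Nat.RecursiveIn O _ from
    (cin_p (O := O) (Primrec.encode (α := α))))
  refine Nat.RecursiveIn.of_eq h4 fun n => ?_
  cases hd : (decode (α := α) n) with
  | none => simp
  | some a =>
    simp only [Part.coe_some, Part.bind_some, Part.map_some, encode_nat]
    show (Part.bind (Part.some (encode a)) _) = _
    rw [Part.bind_some]
    refine Part.eq_some_iff.2 (Nat.mem_rfind.2 ⟨?_, ?_⟩)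
    · have := Nat.find_spec (hex a)
      simp [this, encodek]
    · intro m hm
      have := Nat.find_min (hex a) hm
      simp [this, encodek]

end api

end Pool.Agent.Q222.DS
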