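import Pool.Agent.Q222.DS.Cons

/-!
# Computability of the construction
-/

set_option autoImplicit false

namespace Pool.Agent.Q222.DS

open Encodable Finset

universe u

variable {P : Type u} [AddCommGroup P] [LinearOrder P] [IsOrderedAddMonoid P]

section api

variable {α β : Type} [Primcodable α] [Primcodable β] {O : Set (ℕ →. ℕ)} {e : ℕ ≃ P}

lemma cin_un1 {f : α → ℕ} (hf : ComputableIn O f) : ComputableIn O (fun a => (f a).unpair.1) :=
  cin_fst (cin_prim Primrec.unpair hf)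

lemma cin_un2 {f : α → ℕ} (hf : ComputableIn O f) : ComputableIn O (fun a => (f a).unpair.2) :=
  cin_snd (cin_prim Primrec.unpair hf)

lemma cin_add {f g : α → ℕ} (hf : ComputableIn O f) (hg : ComputableIn O g) :
    ComputableIn O (fun a => f a + g a) := cin_prim₂ Primrec.nat_add hf hg

lemma cin_mul {f g : α → ℕ} (hf : ComputableIn O f) (hg : ComputableIn O g) :
    ComputableIn O (fun a => f a * g a) := cin_prim₂ Primrec.nat_mul hf hg

lemma cin_sub {f g : α → ℕ} (hf : ComputableIn O f) (hg : ComputableIn O g) :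
    ComputableIn O (fun a => f a - g a) := cin_prim₂ Primrec.nat_sub hf hg

lemma cin_npair {f g : α → ℕ} (hf : ComputableIn O f) (hg : ComputableIn O g) :
    ComputableIn O (fun a => Nat.pair (f a) (g a)) := cin_prim₂ Primrec₂.natPair hf hg

lemma cin_len {σ : Type} [Primcodable σ] {f : α → List σ} (hf : ComputableIn O f) :
    ComputableIn O (fun a => (f a).length) := cin_prim Primrec.list_length hf

lemma cin_getD {σ : Type} [Primcodable σ] (d : σ) {f : α → List σ} {i : α → ℕ}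
    (hf : ComputableIn O f) (hi : ComputableIn O i) :
    ComputableIn O (fun a => (f a).getD (i a) d) :=
  cin_prim₂ (g := fun (l : List σ) (n : ℕ) => l.getD n d) (Primrec.list_getD d) hf hi

lemma cp_En {xs : α → List ℕ} {i : α → ℕ} (hx : ComputableIn O xs) (hi : ComputableIn O i) :
    CP O e (fun a => En e (xs a) (i a)) := cp_e (cin_getD 0 hx hi)

lemma pc_Rf (h : Cop O e) (one : P) {s n : α → ℕ} {x : α → P} (hs : ComputableIn O s)
    (hn : ComputableIn O n) (hx : CP O e x) : PC O (fun a => Rf e one (s a) (n a) (x a)) := by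
  unfold Rf
  refine pc_bex hs ?_
  have hw : ComputableIn O (fun p : α × ℕ => p.2) := cin_snd cin_id
  have ha : ComputableIn O (fun p : α × ℕ => p.1) := cin_fst cin_id
  have hp0 : CP O e (fun p : α × ℕ => e p.2.unpair.2.unpair.1) := cp_e (cin_un1 (cin_un2 hw))
  have hy : CP O e (fun p : α × ℕ => e p.2.unpair.2.unpair.2.unpair.2) :=
    cp_e (cin_un2 (cin_un2 (cin_un2 hw)))
  have hk : ComputableIn O (fun p : α × ℕ => p.2.unpair.2.unpair.2.unpair.1) :=
    cin_un1 (cin_un2 (cin_un2 hw))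
  have hky : CP O e (fun p : α × ℕ =>
      (p.2.unpair.2.unpair.2.unpair.1 + 2) • e p.2.unpair.2.unpair.2.unpair.2) :=
    cp_smul h (cin_add hk (cin_const 2)) hy
  have hk1 : CP O e (fun p : α × ℕ => (p.2.unpair.2.unpair.2.unpair.1 + 1) • one) :=
    cp_smul h (cin_add hk (cin_const 1)) (cp_const one)
  refine pc_and ?_ (pc_or ?_ ?_)
  · exact cp_eq (cp_smul h (cin_add (cin_un1 hw) (cin_const 1)) (cp_comp hx ha))
      (cp_smul h (cin_comp hn ha) hp0)
  · exact cp_eq hky (cp_add h hp0 hk1)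
  · exact cp_eq (cp_add h hky hk1) hp0

lemma cin_cf {cs : α → List (List ℕ)} {i y : α → ℕ} (hc : ComputableIn O cs)
    (hi : ComputableIn O i) (hy : ComputableIn O y) :
    ComputableIn O (fun a => cf (cs a) (i a) (y a)) := cin_getD 0 (cin_getD [] hc hi) hy

lemma cp_lc (h : Cop O e) (v0 : P) {xs : α → List ℕ} {j i : α → ℕ} {cs : α → List (List ℕ)}
    (hx : ComputableIn O xs) (hj : ComputableIn O j) (hc : ComputableIn O cs)
    (hi : ComputableIn O i) :
    CP O e (fun a => lc v0 (En e (xs a)) (j a) (cf (cs a) (i a))) := by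
  unfold lc
  refine cp_add h (cp_sum h (u := fun a y => cf (cs a) (i a) y • En e (xs a) y) hj ?_)
    (cp_smul h (cin_cf hc hi hj) (cp_const v0))
  have ha : ComputableIn O (fun p : α × ℕ => p.1) := cin_fst cin_id
  exact cp_smul h (cin_cf (cin_comp hc ha) (cin_comp hi ha) (cin_snd cin_id))
    (cp_En (cin_comp hx ha) (cin_snd cin_id))

lemma pc_Leg (h : Cop O e) (v0 : P) {xs : α → List ℕ} {j : α → ℕ} {c : α → Ct}
    (hx : ComputableIn O xs) (hj : ComputableIn O j) (hc : ComputableIn O c) :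
    PC O (fun a => Leg e v0 (xs a) (j a) (c a)) := by
  unfold Leg
  have hM : ComputableIn O (fun a => (c a).1) := cin_fst hc
  have hys : ComputableIn O (fun a => (c a).2.1) := cin_fst (cin_snd hc)
  have hcs : ComputableIn O (fun a => (c a).2.2.1) := cin_fst (cin_snd (cin_snd hc))
  have hds : ComputableIn O (fun a => (c a).2.2.2) := cin_snd (cin_snd (cin_snd hc))
  have hlen := cin_len hx
  have ha : ComputableIn O (fun p : α × ℕ => p.1) := cin_fst cin_id
  have hi : ComputableIn O (fun p : α × ℕ => p.2) := cin_snd cin_id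
  have hM1 := cin_comp hM ha
  have hys1 := cin_comp hys ha
  have hcs1 := cin_comp hcs ha
  have hds1 := cin_comp hds ha
  have hx1 := cin_comp hx ha
  have hj1 := cin_comp hj ha
  have hlen1 := cin_comp hlen ha
  refine pc_and (pc_lt (cin_const 0) hM) (pc_and (pc_eq (cin_len hys) hlen)
    (pc_and ?_ (pc_and ?_ (pc_and ?_ ?_))))
  · refine pc_ball hlen (pc_imp (pc_lt hi hj1) ?_)
    exact cp_eq (cp_En hys1 hi) (cp_smul h hM1 (cp_En hx1 hi))
  · refine pc_ball hlen ?_
    exact cp_eq (cp_add h (cp_En hys1 hi) (cp_lc h v0 hx1 hj1 hds1 hi))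
      (cp_lc h v0 hx1 hj1 hcs1 hi)
  · refine pc_ball hlen ?_
    refine pc_ball (P := fun (p : α × ℕ) k => En e (xs p.1) p.2 < En e (xs p.1) k →
      En e (c p.1).2.1 p.2 < En e (c p.1).2.1 k) hlen1 ?_
    have hb : ComputableIn O (fun p : (α × ℕ) × ℕ => p.1.1) := cin_fst (cin_fst cin_id)
    have hi : ComputableIn O (fun p : (α × ℕ) × ℕ => p.1.2) := cin_snd (cin_fst cin_id)
    have hk : ComputableIn O (fun p : (α × ℕ) × ℕ => p.2) := cin_snd cin_id
    have hx2 := cin_comp hx hb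
    have hys2 := cin_comp hys hb
    exact pc_imp (cp_lt h (cp_En hx2 hi) (cp_En hx2 hk))
      (cp_lt h (cp_En hys2 hi) (cp_En hys2 hk))
  · refine pc_ball hlen ?_
    refine pc_ball (P := fun (p : α × ℕ) k => ∀ l < (xs p.1).length,
      En e (xs p.1) p.2 + En e (xs p.1) k = En e (xs p.1) l →
      En e (c p.1).2.1 p.2 + En e (c p.1).2.1 k = En e (c p.1).2.1 l) hlen1 ?_
    have hlen2 := cin_comp hlen (f := fun p : (α × ℕ) × ℕ => p.1.1) (cin_fst (cin_fst cin_id))
    refine pc_ball (P := fun (p : (α × ℕ) × ℕ) l =>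
      En e (xs p.1.1) p.1.2 + En e (xs p.1.1) p.2 = En e (xs p.1.1) l →
      En e (c p.1.1).2.1 p.1.2 + En e (c p.1.1).2.1 p.2 = En e (c p.1.1).2.1 l)
      hlen2 ?_
    have hb : ComputableIn O (fun p : ((α × ℕ) × ℕ) × ℕ => p.1.1.1) :=
      cin_fst (cin_fst (cin_fst cin_id))
    have hi : ComputableIn O (fun p : ((α × ℕ) × ℕ) × ℕ => p.1.1.2) :=
      cin_snd (cin_fst (cin_fst cin_id))
    have hk : ComputableIn O (fun p : ((α × ℕ) × ℕ) × ℕ => p.1.2) := cin_snd (cin_fst cin_id)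
    have hl : ComputableIn O (fun p : ((α × ℕ) × ℕ) × ℕ => p.2) := cin_snd cin_id
    have hx2 := cin_comp hx hb
    have hys2 := cin_comp hys hb
    exact pc_imp (cp_eq (cp_add h (cp_En hx2 hi) (cp_En hx2 hk)) (cp_En hx2 hl))
      (cp_eq (cp_add h (cp_En hys2 hi) (cp_En hys2 hk)) (cp_En hys2 hl))

lemma find_inst {p : ℕ → Prop} {i1 i2 : DecidablePred p} (h1 h2 : ∃ n, p n) :
    @Nat.find p i1 h1 = @Nat.find p i2 h2 := by
  have : i1 = i2 := Subsingleton.elim _ _
  subst this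
  rfl

lemma dct_prim : Primrec dct :=
  Primrec.option_getD.comp Primrec.decode (Primrec.const _)

end api

section seq

variable {O : Set (ℕ →. ℕ)} {e : ℕ ≃ P} {U : AddSubgroup P} {one v0 : P}

lemma cin_jj (h : Cop O e) (one : P) : ComputableIn O (jj e one) := by
  classical
  have hP : PC O (fun p : (ℕ × (ℕ × List ℕ)) × ℕ => p.1.2.2.length ≤ p.2 ∨
      Rf e one p.1.1 (p.1.2.1 + 1) (En e p.1.2.2 p.2)) := by
    have hxs : ComputableIn O (fun p : (ℕ × (ℕ × List ℕ)) × ℕ => p.1.2.2) :=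
      cin_snd (cin_snd (cin_fst cin_id))
    have hi : ComputableIn O (fun p : (ℕ × (ℕ × List ℕ)) × ℕ => p.2) := cin_snd cin_id
    refine pc_or (pc_le (cin_len hxs) hi) (pc_Rf h one (cin_fst (cin_fst cin_id)) ?_ (cp_En hxs hi))
    exact cin_add (cin_fst (cin_snd (cin_fst cin_id))) (cin_const 1)
  have := cin_find (P := fun (q : ℕ × (ℕ × List ℕ)) j => q.2.2.length ≤ j ∨
      Rf e one q.1 (q.2.1 + 1) (En e q.2.2 j)) hP (exj e one)
  refine (congrArg (ComputableIn O) (funext fun q => ?_)).mpr this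
  exact find_inst _ _

lemma cin_mm (hG : Good U one v0) (h : Cop O e) : ComputableIn O (mm e U one v0 hG) := by
  classical
  have hP : PC O (fun p : ((ℕ × (ℕ × List ℕ)) × ℕ) × ℕ => p.1.1.2.2.length ≤ p.1.2 ∨
      Leg e v0 p.1.1.2.2 p.1.2 (dct p.2)) := by
    have hxs : ComputableIn O (fun p : ((ℕ × (ℕ × List ℕ)) × ℕ) × ℕ => p.1.1.2.2) :=
      cin_snd (cin_snd (cin_fst (cin_fst cin_id)))
    have hj : ComputableIn O (fun p : ((ℕ × (ℕ × List ℕ)) × ℕ) × ℕ => p.1.2) :=
      cin_snd (cin_fst cin_id)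
    exact pc_or (pc_le (cin_len hxs) hj) (pc_Leg h v0 hxs hj (cin_prim dct_prim (cin_snd cin_id)))
  have h1 := cin_find (P := fun (q : (ℕ × (ℕ × List ℕ)) × ℕ) m => q.1.2.2.length ≤ q.2 ∨
      Leg e v0 q.1.2.2 q.2 (dct m)) hP (exm e U one v0 hG)
  have h2 := cin_comp h1 (cin_pair (cin_id (α := ℕ × (ℕ × List ℕ))) (cin_jj h one))
  refine (congrArg (ComputableIn O) (funext fun q => ?_)).mpr h2
  exact find_inst _ _

lemma cin_xx (hG : Good U one v0) (h : Cop O e) : ComputableIn O (xx e U one v0 hG) := by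
  classical
  have hP : PC O (fun p : (ℕ × (ℕ × List ℕ)) × ℕ => ¬ Rf e one p.1.1 1 (e p.2) ∧
      ∀ i < p.1.2.2.length, En e p.1.2.2 i ≠ (p.1.2.1 + 1) • e p.2) := by
    have hxs : ComputableIn O (fun p : (ℕ × (ℕ × List ℕ)) × ℕ => p.1.2.2) :=
      cin_snd (cin_snd (cin_fst cin_id))
    have hi : ComputableIn O (fun p : (ℕ × (ℕ × List ℕ)) × ℕ => p.2) := cin_snd cin_id
    refine pc_and (pc_not (pc_Rf h one (cin_fst (cin_fst cin_id)) (cin_const 1) (cp_e hi))) ?_
    refine pc_ball (P := fun (p : (ℕ × (ℕ × List ℕ)) × ℕ) i =>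
      En e p.1.2.2 i ≠ (p.1.2.1 + 1) • e p.2) (cin_len hxs) ?_
    have hf : ComputableIn O (fun p : ((ℕ × (ℕ × List ℕ)) × ℕ) × ℕ => p.1) := cin_fst cin_id
    have hn : ComputableIn O (fun p : (ℕ × (ℕ × List ℕ)) × ℕ => p.1.2.1 + 1) :=
      cin_add (cin_fst (cin_snd (cin_fst cin_id))) (cin_const 1)
    have hxs1 := cin_comp hxs hf
    have hi1 := cin_comp hi hf
    have hn1 := cin_comp hn hf
    exact pc_not (cp_eq (cp_En hxs1 (cin_snd cin_id)) (cp_smul h hn1 (cp_e hi1)))
  have := cin_find (P := fun (q : ℕ × (ℕ × List ℕ)) x => ¬ Rf e one q.1 1 (e x) ∧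
      ∀ i < q.2.2.length, En e q.2.2 i ≠ (q.2.1 + 1) • e x) hP
      (fun q => app_exists hG e q.1 q.2.1 q.2.2)
  refine (congrArg (ComputableIn O) (funext fun q => ?_)).mpr this
  exact find_inst _ _

lemma cin_stp (hG : Good U one v0) (h : Cop O e) : ComputableIn O (stp e U one v0 hG) := by
  classical
  have hxs : ComputableIn O (fun q : ℕ × (ℕ × List ℕ) => q.2.2) := cin_snd (cin_snd cin_id)
  have hn : ComputableIn O (fun q : ℕ × (ℕ × List ℕ) => q.2.1 + 1) :=
    cin_add (cin_fst (cin_snd cin_id)) (cin_const 1)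
  have hc : ComputableIn O (fun q : ℕ × (ℕ × List ℕ) => dct (mm e U one v0 hG q)) :=
    cin_prim dct_prim (cin_mm hG h)
  have hx : ComputableIn O (fun q : ℕ × (ℕ × List ℕ) =>
      e.symm ((q.2.1 + 1) • e (xx e U one v0 hG q))) := cp_smul h hn (cp_e (cin_xx hG h))
  have := cin_ite (P := fun q : ℕ × (ℕ × List ℕ) => jj e one q < q.2.2.length)
    (pc_lt (cin_jj h one) (cin_len hxs))
    (cin_pair (cin_sub (cin_mul hn (cin_fst hc)) (cin_const 1)) (cin_fst (cin_snd hc)))
    (cin_pair (cin_fst (cin_snd cin_id)) (cin_prim₂ Primrec.list_concat hxs hx))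
  refine (congrArg (ComputableIn O) (funext fun q => ?_)).mpr this
  unfold stp
  by_cases hh : jj e one q < q.2.2.length
  · rw [if_pos hh, if_pos hh]
  · rw [if_neg hh, if_neg hh]

lemma cin_st (hG : Good U one v0) (h : Cop O e) : ComputableIn O (st e U one v0 hG) := by
  have hstep : ComputableIn O (fun q : ℕ × (ℕ × (ℕ × List ℕ)) => stp e U one v0 hG q.2) :=
    cin_comp (cin_stp hG h) (cin_snd cin_id)
  have h1 := cin_rec (cin_id (α := ℕ)) (cin_const (α := ℕ) ((0, []) : ℕ × List ℕ)) hstep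
  refine (congrArg (ComputableIn O) (funext fun s => ?_)).mpr h1
  show st e U one v0 hG s = (Nat.rec ((0, []) : ℕ × List ℕ)
    (fun y ih => stp e U one v0 hG (y, ih)) s : ℕ × List ℕ)
  induction s with
  | zero => rfl
  | succ s ih =>
    show stp e U one v0 hG (s, st e U one v0 hG s) = _
    rw [ih]

end seq

end Pool.Agent.Q222.DS
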