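import Mathlib

/-!
# The limit of a finite injury construction in an ordered abelian group

`U` is a pure divisible subgroup, `N s` is the common denominator at stage `s`, `L s` the number of
entries, `E s i` the entries, `R s n x` means that `x / n` has been found outside `U` by stage `s`.
-/

set_option autoImplicit false

namespace Pool.Agent.Q222.DS

variable {P : Type*} [AddCommGroup P] [LinearOrder P] [IsOrderedAddMonoid P]

/-- the facts about the construction used in the verification -/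
structure Run (U : AddSubgroup P) (e : ℕ → P) where
  /-- denominator -/
  N : ℕ → ℕ
  /-- number of entries -/
  L : ℕ → ℕ
  /-- entries -/
  E : ℕ → ℕ → P
  /-- refuted quotients -/
  R : ℕ → ℕ → P → Prop
  N0 : 0 < N 0
  L0 : L 0 = 0
  sound : ∀ s n x, 0 < n → R s n x → x ∉ U
  mono : ∀ s t n x, s ≤ t → R s n x → R t n x
  scale : ∀ s n x M, 0 < M → R s n x → R s (M * n) (M • x)
  compl : ∀ n x, 0 < n → x ∉ U → ∃ s, R s n x
  step : ∀ s,
    (∃ j < L s, R s (N s) (E s j) ∧ (∀ i < j, ¬ R s (N s) (E s i)) ∧ L (s + 1) = L s ∧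
      ∃ M, 0 < M ∧ N (s + 1) = M * N s ∧ (∀ i < j, E (s + 1) i = M • E s i) ∧
      ((∀ i < j, E s i ∈ U) → ∀ i < L s, j ≤ i → E (s + 1) i ∈ U) ∧
      (∀ i < L s, ∀ k < L s, E s i < E s k → E (s + 1) i < E (s + 1) k) ∧
      ∀ i < L s, ∀ k < L s, ∀ l < L s, E s i + E s k = E s l →
        E (s + 1) i + E (s + 1) k = E (s + 1) l) ∨
    ((∀ j < L s, ¬ R s (N s) (E s j)) ∧ L (s + 1) = L s + 1 ∧ N (s + 1) = N s ∧
      (∀ i < L s, E (s + 1) i = E s i) ∧
      ∃ x : ℕ, E (s + 1) (L s) = N s • e x ∧ ¬ R s 1 (e x) ∧ (∀ i < L s, E s i ≠ N s • e x) ∧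
        ∀ x' < x, R s 1 (e x') ∨ ∃ i < L s, E s i = N s • e x')

namespace Run

variable {U : AddSubgroup P} {e : ℕ → P} (r : Run U e)

lemma N_pos (s : ℕ) : 0 < r.N s := by
  induction s with
  | zero => exact r.N0
  | succ s ih =>
    rcases r.step s with ⟨j, _, _, _, _, M, hM, h, _⟩ | ⟨_, _, h, _⟩
    · rw [h]; exact Nat.mul_pos hM ih
    · rw [h]; exact ih

lemma L_succ (s : ℕ) : r.L s ≤ r.L (s + 1) := by
  rcases r.step s with ⟨j, _, _, _, h, _⟩ | ⟨_, h, _⟩ <;> omega

lemma L_mono {s t : ℕ} (h : s ≤ t) : r.L s ≤ r.L t := monotone_nat_of_le_succ r.L_succ h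

lemma ord_succ {s i k : ℕ} (hi : i < r.L s) (hk : k < r.L s) (h : r.E s i < r.E s k) :
    r.E (s + 1) i < r.E (s + 1) k := by
  rcases r.step s with ⟨j, _, _, _, _, M, _, _, _, _, h1, _⟩ | ⟨_, _, _, h1, _⟩
  · exact h1 i hi k hk h
  · rw [h1 i hi, h1 k hk]; exact h

lemma ord_mono {s t i k : ℕ} (hst : s ≤ t) (hi : i < r.L s) (hk : k < r.L s)
    (h : r.E s i < r.E s k) : r.E t i < r.E t k := by
  induction t, hst using Nat.le_induction with
  | base => exact h
  | succ t ht ih =>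
    exact r.ord_succ (lt_of_lt_of_le hi (r.L_mono ht)) (lt_of_lt_of_le hk (r.L_mono ht)) ih

lemma sum_succ {s i k l : ℕ} (hi : i < r.L s) (hk : k < r.L s) (hl : l < r.L s)
    (h : r.E s i + r.E s k = r.E s l) : r.E (s + 1) i + r.E (s + 1) k = r.E (s + 1) l := by
  rcases r.step s with ⟨j, _, _, _, _, M, _, _, _, _, _, h1⟩ | ⟨_, _, _, h1, _⟩
  · exact h1 i hi k hk l hl h
  · rw [h1 i hi, h1 k hk, h1 l hl]; exact h

lemma sum_mono {s t i k l : ℕ} (hst : s ≤ t) (hi : i < r.L s) (hk : k < r.L s) (hl : l < r.L s)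
    (h : r.E s i + r.E s k = r.E s l) : r.E t i + r.E t k = r.E t l := by
  induction t, hst using Nat.le_induction with
  | base => exact h
  | succ t ht ih =>
    exact r.sum_succ (lt_of_lt_of_le hi (r.L_mono ht)) (lt_of_lt_of_le hk (r.L_mono ht))
      (lt_of_lt_of_le hl (r.L_mono ht)) ih

lemma distinct (s : ℕ) : ∀ i < r.L s, ∀ k < r.L s, i ≠ k → r.E s i ≠ r.E s k := by
  induction s with
  | zero => intro i hi; rw [r.L0] at hi; omega
  | succ s ih =>
    rcases r.step s with ⟨j, _, _, _, hL, M, _, _, _, _, h1, _⟩ | ⟨_, hL, _, h1, x, hx, _, h2, _⟩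
    · intro i hi k hk hik
      rw [hL] at hi hk
      rcases lt_or_gt_of_ne (ih i hi k hk hik) with h | h
      · exact (h1 i hi k hk h).ne
      · exact (h1 k hk i hi h).ne'
    · intro i hi k hk hik
      rw [hL] at hi hk
      rcases Nat.lt_succ_iff_lt_or_eq.1 hi with hi' | rfl
      · rcases Nat.lt_succ_iff_lt_or_eq.1 hk with hk' | rfl
        · rw [h1 i hi', h1 k hk']; exact ih i hi' k hk' hik
        · rw [h1 i hi', hx]; exact h2 i hi'
      · rcases Nat.lt_succ_iff_lt_or_eq.1 hk with hk' | rfl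
        · rw [h1 k hk', hx]; exact (h2 k hk').symm
        · exact absurd rfl hik

/-- true stages -/
def T (s : ℕ) : Prop := ∀ i < r.L s, r.E s i ∈ U

/-- index injured at stage `s` -/
def Inj (s j : ℕ) : Prop :=
  j < r.L s ∧ r.R s (r.N s) (r.E s j) ∧ ∀ i < j, ¬ r.R s (r.N s) (r.E s i)

/-- step for an uninjured index -/
lemma scal_succ {s i : ℕ} (hi : i < r.L s) (h : ∀ j, r.Inj s j → i < j) :
    ∃ M, 0 < M ∧ r.N (s + 1) = M * r.N s ∧ r.E (s + 1) i = M • r.E s i := by
  rcases r.step s with ⟨j, h1, h2, h3, _, M, hM, hN, h4, _⟩ | ⟨_, _, hN, h1, _⟩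
  · exact ⟨M, hM, hN, h4 i (h j ⟨h1, h2, h3⟩)⟩
  · exact ⟨1, one_pos, by rw [hN, one_mul], by rw [h1 i hi, one_smul]⟩

lemma scal {s t i : ℕ} (hst : s ≤ t) (hi : i < r.L s)
    (h : ∀ t', s ≤ t' → t' < t → ∀ j, r.Inj t' j → i < j) :
    ∃ M, 0 < M ∧ r.N t = M * r.N s ∧ r.E t i = M • r.E s i := by
  induction t, hst using Nat.le_induction with
  | base => exact ⟨1, one_pos, by rw [one_mul], by rw [one_smul]⟩
  | succ t ht ih =>
    obtain ⟨M, hM, hN, hE⟩ := ih fun t' h1 h2 => h t' h1 (by omega)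
    obtain ⟨M', hM', hN', hE'⟩ := r.scal_succ (lt_of_lt_of_le hi (r.L_mono ht))
      (h t ht (by omega))
    refine ⟨M' * M, Nat.mul_pos hM' hM, by rw [hN', hN, mul_assoc], ?_⟩
    rw [hE', hE, mul_smul]

/-- a stage with a refuted entry has an injury -/
lemma exists_inj {s i : ℕ} (hi : i < r.L s) (h : r.R s (r.N s) (r.E s i)) :
    ∃ j ≤ i, r.Inj s j := by
  classical
  have hex : ∃ j, j < r.L s ∧ r.R s (r.N s) (r.E s j) := ⟨i, hi, h⟩
  refine ⟨Nat.find hex, Nat.find_min' hex ⟨hi, h⟩, (Nat.find_spec hex).1, (Nat.find_spec hex).2, ?_⟩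
  intro k hk hR
  exact Nat.find_min hex hk ⟨lt_trans hk (Nat.find_spec hex).1, hR⟩

/-- uninjured entries are true -/
lemma mem_of_stable {s i : ℕ} (hi : i < r.L s) (h : ∀ t, s ≤ t → ∀ j, r.Inj t j → i < j) :
    r.E s i ∈ U := by
  by_contra hx
  obtain ⟨t0, ht0⟩ := r.compl (r.N s) (r.E s i) (r.N_pos s) hx
  obtain ⟨M, hM, hN, hE⟩ := r.scal (t := max s t0) (le_max_left _ _) hi
    (fun t' h1 _ => h t' h1)
  have h1 := r.scale _ _ _ M hM (r.mono _ (max s t0) _ _ (le_max_right _ _) ht0)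
  rw [← hN, ← hE] at h1
  obtain ⟨j, hj, hinj⟩ := r.exists_inj (lt_of_lt_of_le hi (r.L_mono (le_max_left s t0))) h1
  exact absurd (h _ (le_max_left _ _) j hinj) (by omega)

/-- there are infinitely many true stages -/
lemma exists_T (s : ℕ) : ∃ t, s ≤ t ∧ r.T t := by
  classical
  by_cases hS : ∃ j, ∃ t, s ≤ t ∧ r.Inj t j
  · obtain ⟨t, hst, hinj⟩ := Nat.find_spec hS
    set j := Nat.find hS with hj
    have hmin : ∀ i < j, ∀ t', t ≤ t' → ∀ j', r.Inj t' j' → i < j' := by
      intro i hi t' ht' j' hj'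
      by_contra hc
      exact Nat.find_min hS (m := j') (by omega) ⟨t', by omega, hj'⟩
    have htrue : ∀ i < j, r.E t i ∈ U := fun i hi =>
      r.mem_of_stable (lt_trans hi hinj.1) (hmin i hi)
    refine ⟨t + 1, by omega, ?_⟩
    rcases r.step t with ⟨j', h1, h2, h3, hL, M, hM, hN, h4, h5, _⟩ | ⟨h1, _⟩
    · have hjj : j' = j := by
        rcases lt_trichotomy j' j with h | h | h
        · exact absurd h2 (hinj.2.2 j' h)
        · exact h
        · exact absurd hinj.2.1 (h3 j h)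
      rw [hjj] at h4 h5
      intro i hi
      rw [hL] at hi
      rcases lt_or_ge i j with h | h
      · rw [h4 i h]; exact U.nsmul_mem (htrue i h) _
      · exact h5 htrue i hi h
    · exact absurd hinj.2.1 (h1 _ hinj.1)
  · refine ⟨s, le_rfl, fun i hi => r.mem_of_stable hi fun t ht j hj => ?_⟩
    exact absurd ⟨j, t, ht, hj⟩ hS

/-- entries of true stages persist -/
lemma persist {s t i : ℕ} (hT : r.T s) (hst : s ≤ t) (hi : i < r.L s) :
    ∃ M, 0 < M ∧ r.N t = M * r.N s ∧ r.E t i = M • r.E s i := by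
  -- no index below `L s` is injured later
  have key : ∀ t, s ≤ t → ∀ k < r.L s, ∃ M, 0 < M ∧ r.N t = M * r.N s ∧ r.E t k = M • r.E s k := by
    intro t hst
    induction t, hst using Nat.le_induction with
    | base => exact fun k _ => ⟨1, one_pos, by rw [one_mul], by rw [one_smul]⟩
    | succ t ht ih =>
      intro k hk
      obtain ⟨M, hM, hN, hE⟩ := ih k hk
      obtain ⟨M', hM', hN', hE'⟩ := r.scal_succ (s := t) (i := k)
        (lt_of_lt_of_le hk (r.L_mono ht)) (by
          intro j hj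
          by_contra hc
          obtain ⟨M2, _, _, hE2⟩ := ih j (by omega)
          refine r.sound _ _ _ (r.N_pos t) hj.2.1 ?_
          rw [hE2]
          exact U.nsmul_mem (hT j (by omega)) _)
      exact ⟨M' * M, Nat.mul_pos hM' hM, by rw [hN', hN, mul_assoc], by rw [hE', hE, mul_smul]⟩
  exact key t hst i hi

/-- at a true stage a new entry is appended -/
lemma append_of_T {s : ℕ} (hT : r.T s) :
    r.L (s + 1) = r.L s + 1 ∧ r.N (s + 1) = r.N s ∧ (∀ i < r.L s, r.E (s + 1) i = r.E s i) ∧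
      ∃ x : ℕ, r.E (s + 1) (r.L s) = r.N s • e x ∧ ¬ r.R s 1 (e x) ∧
        (∀ i < r.L s, r.E s i ≠ r.N s • e x) ∧
        ∀ x' < x, r.R s 1 (e x') ∨ ∃ i < r.L s, r.E s i = r.N s • e x' := by
  rcases r.step s with ⟨j, h1, h2, _⟩ | ⟨_, h⟩
  · exact absurd (hT j h1) (r.sound _ _ _ (r.N_pos s) h2)
  · exact h

/-- long true stages -/
lemma exists_long (s k : ℕ) : ∃ t, s ≤ t ∧ r.T t ∧ k ≤ r.L t := by
  induction k with
  | zero =>
    obtain ⟨t, h1, h2⟩ := r.exists_T s
    exact ⟨t, h1, h2, by omega⟩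
  | succ k ih =>
    obtain ⟨t, h1, h2, h3⟩ := ih
    obtain ⟨t', h4, h5⟩ := r.exists_T (t + 1)
    refine ⟨t', by omega, h5, ?_⟩
    have h6 := (r.append_of_T h2).1
    have h7 := r.L_mono h4
    omega

/-- The limit. -/
theorem limit (hdiv : ∀ n : ℕ, 0 < n → ∀ x ∈ U, ∃ y ∈ U, n • y = x)
    (he : Function.Surjective e) :
    ∃ f : ℕ → P, (∀ i, f i ∈ U) ∧ Function.Injective f ∧ (∀ u ∈ U, ∃ i, f i = u) ∧
      (∀ s, ∀ i < r.L s, ∀ k < r.L s, r.E s i < r.E s k → f i < f k) ∧
      (∀ s, ∀ i < r.L s, ∀ k < r.L s, ∀ l < r.L s, r.E s i + r.E s k = r.E s l →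
        f i + f k = f l) ∧
      ∀ k, ∃ s, k ≤ r.L s ∧ ∀ i < r.L s, r.E s i = r.N s • f i := by
  classical
  have cancel : ∀ {n : ℕ} {x y : P}, 0 < n → n • x = n • y → x = y := by
    intro n x y hn h
    rcases lt_trichotomy x y with h1 | h1 | h1
    · exact absurd h (nsmul_lt_nsmul_right hn.ne' h1).ne
    · exact h1
    · exact absurd h (nsmul_lt_nsmul_right hn.ne' h1).ne'
  choose tt htt1 htt2 htt3 using fun i => r.exists_long 0 (i + 1)
  have hf0 : ∀ i, ∃ y ∈ U, r.N (tt i) • y = r.E (tt i) i := fun i =>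
    hdiv _ (r.N_pos _) _ (htt2 i i (htt3 i))
  choose f hfU hf using hf0
  have hfT : ∀ t, r.T t → ∀ i < r.L t, r.N t • f i = r.E t i := by
    intro t ht i hi
    obtain ⟨M, hM, hN, hE⟩ := r.persist (t := max t (tt i)) ht (le_max_left _ _) hi
    obtain ⟨M', hM', hN', hE'⟩ := r.persist (t := max t (tt i)) (htt2 i) (le_max_right _ _) (htt3 i)
    apply cancel hM
    rw [← hE, smul_smul, ← hN, hN', mul_smul, hf, hE']
  have hord : ∀ s, ∀ i < r.L s, ∀ k < r.L s, r.E s i < r.E s k → f i < f k := by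
    intro s i hi k hk h
    obtain ⟨t, hst, hT⟩ := r.exists_T s
    have h1 := r.ord_mono hst hi hk h
    rw [← hfT t hT i (lt_of_lt_of_le hi (r.L_mono hst)),
      ← hfT t hT k (lt_of_lt_of_le hk (r.L_mono hst))] at h1
    by_contra hc
    exact absurd h1 (not_lt.2 (nsmul_le_nsmul_right (not_lt.1 hc) _))
  have hsum : ∀ s, ∀ i < r.L s, ∀ k < r.L s, ∀ l < r.L s, r.E s i + r.E s k = r.E s l →
      f i + f k = f l := by
    intro s i hi k hk l hl h
    obtain ⟨t, hst, hT⟩ := r.exists_T s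
    have h1 := r.sum_mono hst hi hk hl h
    rw [← hfT t hT i (lt_of_lt_of_le hi (r.L_mono hst)),
      ← hfT t hT k (lt_of_lt_of_le hk (r.L_mono hst)),
      ← hfT t hT l (lt_of_lt_of_le hl (r.L_mono hst)), ← smul_add] at h1
    exact cancel (r.N_pos t) h1
  refine ⟨f, hfU, ?_, ?_, hord, hsum, ?_⟩
  · intro i k hik
    by_contra hne
    obtain ⟨t, -, hT, hL⟩ := r.exists_long 0 (max i k + 1)
    have hi : i < r.L t := by have := le_max_left i k; omega
    have hk : k < r.L t := by have := le_max_right i k; omega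
    rcases lt_or_gt_of_ne (r.distinct t i hi k hk hne) with h | h
    · exact absurd hik (hord t i hi k hk h).ne
    · exact absurd hik (hord t k hk i hi h).ne'
  · -- surjectivity, by induction on codes
    have key : ∀ x : ℕ, e x ∈ U → ∃ i, f i = e x := by
      intro x
      induction x using Nat.strong_induction_on with
      | _ x ih =>
      intro hx
      have h1 : ∀ x' , ∃ s, x' < x → (e x' ∉ U → r.R s 1 (e x')) ∧
          (e x' ∈ U → ∃ i < s, f i = e x') := by
        intro x'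
        by_cases hlt : x' < x
        · by_cases hU : e x' ∈ U
          · obtain ⟨i, hi⟩ := ih x' hlt hU
            exact ⟨i + 1, fun _ => ⟨fun h => absurd hU h, fun _ => ⟨i, by omega, hi⟩⟩⟩
          · obtain ⟨s, hs⟩ := r.compl 1 (e x') one_pos hU
            exact ⟨s, fun _ => ⟨fun _ => hs, fun h => absurd h hU⟩⟩
        · exact ⟨0, fun h => absurd h hlt⟩
      choose S hS using h1
      set s0 := (Finset.range x).sup S with hs0
      have hle : ∀ x' < x, S x' ≤ s0 := fun x' h => Finset.le_sup (Finset.mem_range.2 h)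
      obtain ⟨t, hst, hT, hL⟩ := r.exists_long s0 s0
      obtain ⟨hL1, hN1, hE1, x'', hx1, hx2, hx3, hx4⟩ := r.append_of_T hT
      by_cases hin : ∃ i < r.L t, r.E t i = r.N t • e x
      · obtain ⟨i, hi, h2⟩ := hin
        refine ⟨i, cancel (r.N_pos t) ?_⟩
        rw [hfT t hT i hi, h2]
      push Not at hin
      have hxx : x'' = x := by
        rcases lt_trichotomy x'' x with h | h | h
        · exfalso
          by_cases hU : e x'' ∈ U
          · obtain ⟨i, hi, h2⟩ := (hS x'' h).2 hU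
            have hi' : i < r.L t := by have := hle x'' h; omega
            refine hx3 i hi' ?_
            rw [← hfT t hT i hi', h2]
          · exact hx2 (r.mono _ _ _ _ (le_trans (hle x'' h) hst) ((hS x'' h).1 hU))
        · exact h
        · exfalso
          rcases hx4 x h with h2 | ⟨i, hi, h2⟩
          · exact r.sound _ _ _ one_pos h2 hx
          · exact hin i hi h2
      subst hxx
      have hT' : r.T (t + 1) := by
        intro i hi
        rw [hL1] at hi
        rcases Nat.lt_succ_iff_lt_or_eq.1 hi with h | rfl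
        · rw [hE1 i h]; exact hT i h
        · rw [hx1]; exact U.nsmul_mem hx _
      refine ⟨r.L t, cancel (r.N_pos t) ?_⟩
      rw [← hx1, ← hfT (t + 1) hT' (r.L t) (by omega), hN1]
    intro u hu
    obtain ⟨x, rfl⟩ := he u
    exact key x hu
  · intro k
    obtain ⟨t, -, hT, hL⟩ := r.exists_long 0 k
    exact ⟨t, hL, fun i hi => (hfT t hT i hi).symm⟩

end Run

end Pool.Agent.Q222.DS
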