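import Pool.Agent.Q222.DS.CP
import Pool.Agent.Q222.DS.Ver

/-!
# The construction
-/

set_option autoImplicit false

namespace Pool.Agent.Q222.DS

open Encodable Finset

universe u

variable {P : Type u} [AddCommGroup P] [LinearOrder P] [IsOrderedAddMonoid P]

/-- a subgroup with the properties of `V` inside `V × ℤ` -/
structure Good (U : AddSubgroup P) (one v0 : P) : Prop where
  v0U : v0 ∈ U
  v0ne : v0 ≠ 0
  pure : ∀ n : ℕ, 0 < n → ∀ x, n • x ∈ U → x ∈ U
  div : ∀ n : ℕ, 0 < n → ∀ x ∈ U, ∃ y ∈ U, n • y = x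
  refSound : ∀ (p y : P) (k : ℕ), ((k + 2) • y = p + (k + 1) • one ∨
    (k + 2) • y + (k + 1) • one = p) → p ∉ U
  refCompl : ∀ p, p ∉ U → ∃ (y : P) (k : ℕ), (k + 2) • y = p + (k + 1) • one ∨
    (k + 2) • y + (k + 1) • one = p

/-- entries of a list of codes -/
def En (e : ℕ ≃ P) (xs : List ℕ) (i : ℕ) : P := e (xs.getD i 0)

/-- `x / n` is refuted by stage `s` -/
def Rf (e : ℕ ≃ P) (one : P) (s n : ℕ) (x : P) : Prop :=
  ∃ w < s, (w.unpair.1 + 1) • x = n • e w.unpair.2.unpair.1 ∧
    ((w.unpair.2.unpair.2.unpair.1 + 2) • e w.unpair.2.unpair.2.unpair.2 =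
        e w.unpair.2.unpair.1 + (w.unpair.2.unpair.2.unpair.1 + 1) • one ∨
      (w.unpair.2.unpair.2.unpair.1 + 2) • e w.unpair.2.unpair.2.unpair.2 +
        (w.unpair.2.unpair.2.unpair.1 + 1) • one = e w.unpair.2.unpair.1)

/-- certificates -/
abbrev Ct : Type := ℕ × (List ℕ × (List (List ℕ) × List (List ℕ)))

/-- decoding of certificates -/
def dct (m : ℕ) : Ct := ((decode m : Option Ct).getD (0, ([], ([], []))))

/-- coefficients of a certificate -/
def cf (cs : List (List ℕ)) (i y : ℕ) : ℕ := (cs.getD i []).getD y 0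

/-- legal replacements at an injury of index `j` -/
def Leg (e : ℕ ≃ P) (v0 : P) (xs : List ℕ) (j : ℕ) (c : Ct) : Prop :=
  0 < c.1 ∧ c.2.1.length = xs.length ∧
    (∀ i < xs.length, i < j → En e c.2.1 i = c.1 • En e xs i) ∧
    (∀ i < xs.length, En e c.2.1 i + lc v0 (En e xs) j (cf c.2.2.2 i) =
      lc v0 (En e xs) j (cf c.2.2.1 i)) ∧
    (∀ i < xs.length, ∀ k < xs.length, En e xs i < En e xs k → En e c.2.1 i < En e c.2.1 k) ∧
    ∀ i < xs.length, ∀ k < xs.length, ∀ l < xs.length, En e xs i + En e xs k = En e xs l →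
      En e c.2.1 i + En e c.2.1 k = En e c.2.1 l

lemma getD_map_range {β : Type} (f : ℕ → β) (d : β) {n i : ℕ} (h : i < n) :
    (((List.range n).map f).getD i d) = f i := by
  simp [List.getD_eq_getElem?_getD, h]

lemma lc_congr {v0 : P} {E : ℕ → P} {j : ℕ} {c d : ℕ → ℕ} (h : ∀ y ≤ j, c y = d y) :
    lc v0 E j c = lc v0 E j d := by
  unfold lc
  rw [h j le_rfl]
  congr 1
  exact Finset.sum_congr rfl fun y hy => by rw [h y (Finset.mem_range.1 hy).le]

lemma leg_exists (e : ℕ ≃ P) {v0 : P} (hv0 : v0 ≠ 0) (xs : List ℕ) {j : ℕ} (hj : j ≤ xs.length) :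
    ∃ m, Leg e v0 xs j (dct m) := by
  classical
  obtain ⟨M, hM, F, h1, h2, h3, h4⟩ := rep v0 hv0 (En e xs) xs.length j hj
  have h5 : ∀ i, ∃ c d : ℕ → ℕ, i < xs.length →
      F i + lc v0 (En e xs) j d = lc v0 (En e xs) j c := by
    intro i
    by_cases hi : i < xs.length
    · obtain ⟨c, d, h⟩ := h2 i hi
      exact ⟨c, d, fun _ => h⟩
    · exact ⟨0, 0, fun h => absurd h hi⟩
  choose c d hcd using h5
  set ys : List ℕ := (List.range xs.length).map (fun i => e.symm (F i)) with hys
  set cs : List (List ℕ) := (List.range xs.length).map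
    (fun i => (List.range (j + 1)).map (c i)) with hcs
  set ds : List (List ℕ) := (List.range xs.length).map
    (fun i => (List.range (j + 1)).map (d i)) with hds
  have hE : ∀ i < xs.length, En e ys i = F i := by
    intro i hi
    unfold En
    rw [hys, getD_map_range _ _ hi]
    simp
  refine ⟨encode ((M, (ys, (cs, ds))) : Ct), ?_⟩
  have hdec : dct (encode ((M, (ys, (cs, ds))) : Ct)) = (M, (ys, (cs, ds))) := by
    unfold dct
    rw [encodek]
    rfl
  rw [hdec]
  have hcc : ∀ i < xs.length, ∀ y ≤ j, cf cs i y = c i y := by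
    intro i hi y hy
    unfold cf
    rw [hcs, getD_map_range _ _ hi, getD_map_range _ _ (Nat.lt_succ_of_le hy)]
  have hdd : ∀ i < xs.length, ∀ y ≤ j, cf ds i y = d i y := by
    intro i hi y hy
    unfold cf
    rw [hds, getD_map_range _ _ hi, getD_map_range _ _ (Nat.lt_succ_of_le hy)]
  refine ⟨hM, by simp [hys], ?_, ?_, ?_, ?_⟩
  · intro i hi hij
    show En e ys i = M • En e xs i
    rw [hE i hi, h1 i hi hij]
  · intro i hi
    show En e ys i + lc v0 (En e xs) j (cf ds i) = lc v0 (En e xs) j (cf cs i)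
    rw [hE i hi, lc_congr (hdd i hi), lc_congr (hcc i hi)]
    exact hcd i hi
  · intro i hi k hk h
    show En e ys i < En e ys k
    rw [hE i hi, hE k hk]
    exact h3 i hi k hk h
  · intro i hi k hk l hl h
    show En e ys i + En e ys k = En e ys l
    rw [hE i hi, hE k hk, hE l hl]
    exact h4 i hi k hk l hl h

lemma rf_sound {U : AddSubgroup P} {one v0 : P} (hG : Good U one v0) {e : ℕ ≃ P} {s n : ℕ} {x : P}
    (hn : 0 < n) (h : Rf e one s n x) : x ∉ U := by
  obtain ⟨w, _, h1, h2⟩ := h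
  intro hx
  refine hG.refSound _ _ _ h2 (hG.pure n hn _ ?_)
  rw [← h1]
  exact U.nsmul_mem hx _

lemma rf_mono {one : P} {e : ℕ ≃ P} {s t n : ℕ} {x : P} (hst : s ≤ t) (h : Rf e one s n x) :
    Rf e one t n x := by
  obtain ⟨w, h0, h1, h2⟩ := h
  exact ⟨w, by omega, h1, h2⟩

lemma rf_scale {one : P} {e : ℕ ≃ P} {s n : ℕ} {x : P} (M : ℕ) (h : Rf e one s n x) :
    Rf e one s (M * n) (M • x) := by
  obtain ⟨w, h0, h1, h2⟩ := h
  refine ⟨w, h0, ?_, h2⟩
  rw [mul_smul, ← h1, smul_smul, smul_smul, mul_comm]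

lemma rf_compl {U : AddSubgroup P} {one v0 : P} (hG : Good U one v0) (e : ℕ ≃ P) {n : ℕ} {x : P}
    (hn : 0 < n) (hx : x ∉ U) : ∃ s, Rf e one s n x := by
  obtain ⟨y, k, h⟩ := hG.refCompl x hx
  refine ⟨Nat.pair (n - 1) (Nat.pair (e.symm x) (Nat.pair k (e.symm y))) + 1,
    Nat.pair (n - 1) (Nat.pair (e.symm x) (Nat.pair k (e.symm y))), by omega, ?_, ?_⟩
  · simp only [Nat.unpair_pair, Equiv.apply_symm_apply]
    congr 1
    omega
  · simpa only [Nat.unpair_pair, Equiv.apply_symm_apply] using h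

lemma app_exists {U : AddSubgroup P} {one v0 : P} (hG : Good U one v0) (e : ℕ ≃ P) (s n : ℕ)
    (xs : List ℕ) : ∃ x, ¬ Rf e one s 1 (e x) ∧ ∀ i < xs.length, En e xs i ≠ (n + 1) • e x := by
  classical
  have hinj : ∀ {m : ℕ}, 0 < m → ∀ {x y : P}, m • x = m • y → x = y := by
    intro m hm x y h
    rcases lt_trichotomy x y with h1 | h1 | h1
    · exact absurd h (nsmul_lt_nsmul_right hm.ne' h1).ne
    · exact h1
    · exact absurd h (nsmul_lt_nsmul_right hm.ne' h1).ne'
  have hpos : ∀ m : ℕ, 0 < m → m • v0 ≠ 0 := by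
    intro m hm h
    exact hG.v0ne (hinj hm (by rw [h, smul_zero]))
  have hmul : Function.Injective (fun k : ℕ => e.symm (k • v0)) := by
    intro a b hab
    have h1 : a • v0 = b • v0 := e.symm.injective hab
    by_contra hne
    rcases lt_or_gt_of_ne hne with h | h
    · refine hpos (b - a) (by omega) ?_
      have : a • v0 + (b - a) • v0 = a • v0 + 0 := by
        rw [← add_smul, add_zero, h1]; congr 1; omega
      exact add_left_cancel this
    · refine hpos (a - b) (by omega) ?_
      have : b • v0 + (a - b) • v0 = b • v0 + 0 := by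
        rw [← add_smul, add_zero, ← h1]; congr 1; omega
      exact add_left_cancel this
  have hfin : (⋃ i ∈ Finset.range xs.length, {x : ℕ | En e xs i = (n + 1) • e x}).Finite := by
    refine Set.Finite.biUnion (Finset.finite_toSet _) fun i _ => Set.Subsingleton.finite ?_
    intro a ha b hb
    exact e.injective (hinj (Nat.succ_pos n) (ha.symm.trans hb))
  obtain ⟨x, ⟨k, rfl⟩, hx⟩ := ((Set.infinite_range_of_injective hmul).sdiff hfin).nonempty
  refine ⟨e.symm (k • v0), fun h => ?_, fun i hi h => hx ?_⟩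
  · refine rf_sound hG one_pos h ?_
    rw [Equiv.apply_symm_apply]
    exact U.nsmul_mem hG.v0U _
  · exact Set.mem_biUnion (Finset.mem_coe.2 (Finset.mem_range.2 hi)) h

section seq

variable (e : ℕ ≃ P) (U : AddSubgroup P) (one v0 : P) (hG : Good U one v0)

lemma exj (q : ℕ × (ℕ × List ℕ)) :
    ∃ j, q.2.2.length ≤ j ∨ Rf e one q.1 (q.2.1 + 1) (En e q.2.2 j) := ⟨_, Or.inl le_rfl⟩

include hG in
lemma exm (q : (ℕ × (ℕ × List ℕ)) × ℕ) :
    ∃ m, q.1.2.2.length ≤ q.2 ∨ Leg e v0 q.1.2.2 q.2 (dct m) := by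
  rcases le_or_gt q.1.2.2.length q.2 with h | h
  · exact ⟨0, Or.inl h⟩
  · obtain ⟨m, hm⟩ := leg_exists e hG.v0ne q.1.2.2 h.le
    exact ⟨m, Or.inr hm⟩

open Classical in
/-- injured index -/
noncomputable def jj (q : ℕ × (ℕ × List ℕ)) : ℕ := Nat.find (exj e one q)

open Classical in
/-- certificate used -/
noncomputable def mm (q : ℕ × (ℕ × List ℕ)) : ℕ := Nat.find (exm e U one v0 hG (q, jj e one q))

open Classical in
/-- element appended -/
noncomputable def xx (q : ℕ × (ℕ × List ℕ)) : ℕ := Nat.find (app_exists hG e q.1 q.2.1 q.2.2)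

open Classical in
/-- the step function -/
noncomputable def stp (q : ℕ × (ℕ × List ℕ)) : ℕ × List ℕ :=
  if jj e one q < q.2.2.length then
    ((q.2.1 + 1) * (dct (mm e U one v0 hG q)).1 - 1, (dct (mm e U one v0 hG q)).2.1)
  else (q.2.1, q.2.2 ++ [e.symm ((q.2.1 + 1) • e (xx e U one v0 hG q))])

/-- the sequence of states -/
noncomputable def st : ℕ → ℕ × List ℕ
  | 0 => (0, [])
  | s + 1 => stp e U one v0 hG (s, st s)

/-- the run -/
noncomputable def theRun : Run U e where
  N s := (st e U one v0 hG s).1 + 1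
  L s := (st e U one v0 hG s).2.length
  E s i := En e (st e U one v0 hG s).2 i
  R := Rf e one
  N0 := Nat.succ_pos _
  L0 := rfl
  sound s n x hn h := rf_sound hG hn h
  mono s t n x hst h := rf_mono hst h
  scale s n x M _ h := rf_scale M h
  compl n x hn hx := rf_compl hG e hn hx
  step s := by
    classical
    set q : ℕ × (ℕ × List ℕ) := (s, st e U one v0 hG s) with hq
    have hst : st e U one v0 hG (s + 1) = stp e U one v0 hG q := rfl
    by_cases hj : jj e one q < q.2.2.length
    · left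
      have hst' : st e U one v0 hG (s + 1) = ((q.2.1 + 1) * (dct (mm e U one v0 hG q)).1 - 1,
          (dct (mm e U one v0 hG q)).2.1) := by
        rw [hst, stp, if_pos hj]
      have h1 : Rf e one q.1 (q.2.1 + 1) (En e q.2.2 (jj e one q)) := by
        rcases Nat.find_spec (exj e one q) with h | h
        · exact absurd h (not_le.2 hj)
        · exact h
      have h2 : ∀ i < jj e one q, ¬ Rf e one q.1 (q.2.1 + 1) (En e q.2.2 i) := by
        intro i hi h
        exact Nat.find_min (exj e one q) hi (Or.inr h)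
      have h3 : Leg e v0 q.2.2 (jj e one q) (dct (mm e U one v0 hG q)) := by
        rcases Nat.find_spec (exm e U one v0 hG (q, jj e one q)) with h | h
        · exact absurd h (not_le.2 hj)
        · exact h
      obtain ⟨hM, hlen, ha, hb, hc, hd⟩ := h3
      refine ⟨jj e one q, hj, h1, h2, ?_, (dct (mm e U one v0 hG q)).1, hM, ?_, ?_, ?_, ?_, ?_⟩
      · rw [hst']; exact hlen
      · rw [hst']
        show (q.2.1 + 1) * (dct (mm e U one v0 hG q)).1 - 1 + 1 =
          (dct (mm e U one v0 hG q)).1 * (q.2.1 + 1)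
        rw [Nat.sub_add_cancel (Nat.mul_pos (Nat.succ_pos _) hM), mul_comm]
      · intro i hi
        rw [hst']
        exact ha i (lt_trans hi hj) hi
      · intro hU i hi _
        rw [hst']
        have h4 := hb i hi
        have h5 := lc_mem (v0 := v0) U hG.v0U hU (cf (dct (mm e U one v0 hG q)).2.2.1 i)
        have h6 := lc_mem (v0 := v0) U hG.v0U hU (cf (dct (mm e U one v0 hG q)).2.2.2 i)
        show En e (dct (mm e U one v0 hG q)).2.1 i ∈ U
        rw [eq_sub_of_add_eq h4]
        exact U.sub_mem h5 h6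
      · intro i hi k hk h
        rw [hst']
        exact hc i hi k hk h
      · intro i hi k hk l hl h
        rw [hst']
        exact hd i hi k hk l hl h
    · right
      have hst' : st e U one v0 hG (s + 1) =
          (q.2.1, q.2.2 ++ [e.symm ((q.2.1 + 1) • e (xx e U one v0 hG q))]) := by
        rw [hst, stp, if_neg hj]
      have hx := Nat.find_spec (app_exists hG e q.1 q.2.1 q.2.2)
      have hxm := fun {m : ℕ} => Nat.find_min (app_exists hG e q.1 q.2.1 q.2.2) (m := m)
      refine ⟨?_, ?_, ?_, ?_, xx e U one v0 hG q, ?_, hx.1, hx.2, ?_⟩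
      · intro i hi h
        exact Nat.find_min (exj e one q) (lt_of_lt_of_le hi (not_lt.1 hj)) (Or.inr h)
      · rw [hst']; simp [hq]
      · rw [hst']
      · intro i hi
        rw [hst']
        show En e (q.2.2 ++ _) i = En e q.2.2 i
        unfold En
        rw [List.getD_append _ _ _ _ hi]
      · rw [hst']
        show En e (q.2.2 ++ _) q.2.2.length = _
        unfold En
        rw [List.getD_append_right _ _ _ _ le_rfl]
        simp [hq]
      · intro x' hx'
        have := hxm hx'
        by_contra hc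
        push Not at hc
        exact this ⟨hc.1, hc.2⟩

end seq

end Pool.Agent.Q222.DS
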