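import Pool.Agent.Q222.DS.Comp

/-!
# Atomic diagrams, coding
-/

set_option autoImplicit false

namespace Pool.Agent.Q222.DS

open Encodable

universe u

variable {P : Type u} [AddCommGroup P] [LinearOrder P] [IsOrderedAddMonoid P]

/-- generic diagram with two extra codes -/
def gdiag (plus : ℕ → ℕ → ℕ) (less : ℕ → ℕ → Prop) (z w : ℕ) : Set ℕ :=
  {n | (∃ a b, n = 4 * Nat.pair (Nat.pair a b) (plus a b)) ∨
    (∃ a b, less a b ∧ n = 4 * Nat.pair a b + 1) ∨ n = 4 * z + 2 ∨ n = w}

open Classical in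
/-- characteristic function -/
noncomputable def chr (S : Set ℕ) (n : ℕ) : ℕ := if n ∈ S then 1 else 0

lemma pc_chr {O : Set (ℕ →. ℕ)} {S : Set ℕ} (h : PC O (fun n : ℕ => n ∈ S)) :
    ComputableIn O (chr S) := by
  have := cin_ite h (cin_const (1 : ℕ)) (cin_const 0)
  exact this

lemma chr_pc {O : Set (ℕ →. ℕ)} {S : Set ℕ} (h : ComputableIn O (chr S)) :
    PC O (fun n : ℕ => n ∈ S) := by
  refine pc_of_eq (pc_eq h (cin_const 1)) fun n => ?_
  unfold chr
  split_ifs with h1 <;> simp [h1]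

lemma mod_lem (a b : ℕ) (hb : b < 4) : (4 * a + b) % 4 = b ∧ (4 * a + b) / 4 = a := by omega

lemma cop_chr {O : Set (ℕ →. ℕ)} {e : ℕ ≃ P} (h : Cop O e) {plus : ℕ → ℕ → ℕ}
    {less : ℕ → ℕ → Prop} (hp : ∀ a b, e (plus a b) = e a + e b)
    (hl : ∀ a b, less a b ↔ e a < e b) (z w : ℕ) : ComputableIn O (chr (gdiag plus less z w)) := by
  have hplus : ∀ a b, plus a b = e.symm (e a + e b) := fun a b => by
    rw [← hp, Equiv.symm_apply_apply]
  have hd : ComputableIn O (fun n : ℕ => n / 4) :=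
    cin_prim₂ Primrec.nat_div cin_id (cin_const 4)
  have hm : ComputableIn O (fun n : ℕ => n % 4) :=
    cin_prim₂ Primrec.nat_mod cin_id (cin_const 4)
  refine pc_chr (pc_of_eq (P := fun n : ℕ =>
    (n % 4 = 0 ∧ (n / 4).unpair.2 = e.symm (e (n / 4).unpair.1.unpair.1 +
      e (n / 4).unpair.1.unpair.2)) ∨
    (n % 4 = 1 ∧ e (n / 4).unpair.1 < e (n / 4).unpair.2) ∨ n = 4 * z + 2 ∨ n = w) ?_ fun n => ?_)
  · refine pc_or (pc_and (pc_eq hm (cin_const 0)) (pc_eq (cin_un2 hd) ?_))
      (pc_or (pc_and (pc_eq hm (cin_const 1)) ?_)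
        (pc_or (pc_eq cin_id (cin_const _)) (pc_eq cin_id (cin_const _))))
    · exact cp_add h (cp_e (cin_un1 (cin_un1 hd))) (cp_e (cin_un2 (cin_un1 hd)))
    · exact cp_lt h (cp_e (cin_un1 hd)) (cp_e (cin_un2 hd))
  · unfold gdiag
    rw [Set.mem_ofPred_eq]
    refine or_congr ?_ (or_congr ?_ Iff.rfl)
    · constructor
      · rintro ⟨h1, h2⟩
        refine ⟨(n / 4).unpair.1.unpair.1, (n / 4).unpair.1.unpair.2, ?_⟩
        rw [hplus, ← h2, Nat.pair_unpair, Nat.pair_unpair]
        omega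
      · rintro ⟨a, b, rfl⟩
        have h3 := mod_lem (Nat.pair (Nat.pair a b) (plus a b)) 0 (by omega)
        rw [add_zero] at h3
        rw [h3.1, h3.2, Nat.unpair_pair]
        simp only [Nat.unpair_pair]
        exact ⟨trivial, hplus a b⟩
    · constructor
      · rintro ⟨h1, h2⟩
        refine ⟨(n / 4).unpair.1, (n / 4).unpair.2, (hl _ _).2 h2, ?_⟩
        rw [Nat.pair_unpair]
        omega
      · rintro ⟨a, b, h1, rfl⟩
        have h3 := mod_lem (Nat.pair a b) 1 (by omega)
        rw [h3.1, h3.2, Nat.unpair_pair]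
        exact ⟨rfl, (hl a b).1 h1⟩

lemma chr_cop {O : Set (ℕ →. ℕ)} {e : ℕ ≃ P} {plus : ℕ → ℕ → ℕ}
    {less : ℕ → ℕ → Prop} (hp : ∀ a b, e (plus a b) = e a + e b)
    (hl : ∀ a b, less a b ↔ e a < e b) {z w : ℕ} (hw : 2 ≤ w % 4)
    (h : ComputableIn O (chr (gdiag plus less z w))) : Cop O e := by
  classical
  have hS := chr_pc h
  have hplus : ∀ a b, plus a b = e.symm (e a + e b) := fun a b => by
    rw [← hp, Equiv.symm_apply_apply]
  have h0 : ∀ a b c, 4 * Nat.pair (Nat.pair a b) c ∈ gdiag plus less z w ↔ c = plus a b := by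
    intro a b c
    unfold gdiag
    rw [Set.mem_ofPred_eq]
    constructor
    · rintro (⟨a', b', h1⟩ | ⟨a', b', _, h1⟩ | h1 | h1)
      · have h2 : Nat.pair (Nat.pair a b) c = Nat.pair (Nat.pair a' b') (plus a' b') := by omega
        rw [Nat.pair_eq_pair, Nat.pair_eq_pair] at h2
        obtain ⟨⟨rfl, rfl⟩, h3⟩ := h2
        exact h3
      · omega
      · omega
      · omega
    · rintro rfl
      exact Or.inl ⟨a, b, rfl⟩
  have h1 : ∀ a b, 4 * Nat.pair a b + 1 ∈ gdiag plus less z w ↔ less a b := by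
    intro a b
    unfold gdiag
    rw [Set.mem_ofPred_eq]
    constructor
    · rintro (⟨a', b', h1⟩ | ⟨a', b', h0, h1⟩ | h1 | h1)
      · omega
      · have h2 : Nat.pair a b = Nat.pair a' b' := by omega
        rw [Nat.pair_eq_pair] at h2
        obtain ⟨rfl, rfl⟩ := h2
        exact h0
      · omega
      · omega
    · intro h2
      exact Or.inr (Or.inl ⟨a, b, h2, rfl⟩)
  refine ⟨?_, ?_⟩
  · have hex : ∀ p : ℕ × ℕ, ∃ c, 4 * Nat.pair (Nat.pair p.1 p.2) c ∈ gdiag plus less z w :=
      fun p => ⟨plus p.1 p.2, (h0 _ _ _).2 rfl⟩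
    have hP : PC O (fun q : (ℕ × ℕ) × ℕ => 4 * Nat.pair (Nat.pair q.1.1 q.1.2) q.2 ∈
        gdiag plus less z w) := by
      refine pc_comp (f := fun q : (ℕ × ℕ) × ℕ => 4 * Nat.pair (Nat.pair q.1.1 q.1.2) q.2) hS ?_
      exact cin_mul (cin_const 4) (cin_npair (cin_npair (cin_fst (cin_fst cin_id))
        (cin_snd (cin_fst cin_id))) (cin_snd cin_id))
    have h2 := cin_find (P := fun (p : ℕ × ℕ) c => 4 * Nat.pair (Nat.pair p.1 p.2) c ∈
      gdiag plus less z w) hP hex
    refine (congrArg (ComputableIn O) (funext fun p => ?_)).mpr h2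
    have h3 := Nat.find_spec (hex p)
    rw [h0] at h3
    rw [← hplus, ← h3]
  · refine pc_of_eq (pc_comp (f := fun p : ℕ × ℕ => 4 * Nat.pair p.1 p.2 + 1) hS ?_) fun p => ?_
    · exact cin_add (cin_mul (cin_const 4) (cin_npair (cin_fst cin_id) (cin_snd cin_id)))
        (cin_const 1)
    · exact (h1 _ _).trans (hl _ _)

/-- the swap permutation -/
lemma half_swap (sw : ℕ → Prop) [DecidablePred sw] :
    ∃ π : ℕ ≃ ℕ, ∀ n, π n = if sw (n / 2) then (if n % 2 = 0 then n + 1 else n - 1) else n := by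
  set p : ℕ → ℕ := fun n => if sw (n / 2) then (if n % 2 = 0 then n + 1 else n - 1) else n with hp
  have hinv : ∀ n, p (p n) = n := by
    intro n
    by_cases h : sw (n / 2)
    · by_cases h2 : n % 2 = 0
      · have h3 : p n = n + 1 := by simp only [hp]; rw [if_pos h, if_pos h2]
        have h4 : (n + 1) / 2 = n / 2 := by omega
        rw [h3]
        simp only [hp]
        rw [h4, if_pos h, if_neg (by omega)]
        omega
      · have h3 : p n = n - 1 := by simp only [hp]; rw [if_pos h, if_neg h2]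
        have h4 : (n - 1) / 2 = n / 2 := by omega
        rw [h3]
        simp only [hp]
        rw [h4, if_pos h, if_pos (by omega)]
        omega
    · have h3 : p n = n := by simp only [hp]; rw [if_neg h]
      rw [h3, h3]
  exact ⟨⟨p, p, hinv, hinv⟩, fun n => rfl⟩

/-- coding a function into a copy -/
theorem coding {O : Set (ℕ →. ℕ)} {g : ℕ ≃ P} (h : Cop O g) {f : ℕ → ℕ} (hf : ComputableIn O f) :
    ∃ g' : ℕ ≃ P, Cop O g' ∧ ∀ O', Cop O' g' → ComputableIn O' f := by
  classical
  set bit : ℕ → Prop := fun k => f k.unpair.1 = k.unpair.2 with hbit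
  set sw : ℕ → Prop := fun k => ¬ (g (2 * k) < g (2 * k + 1) ↔ bit k) with hsw
  obtain ⟨π, hπ⟩ := half_swap sw
  have hbc : PC O bit := pc_eq (cin_comp hf (cin_un1 cin_id)) (cin_un2 cin_id)
  have h2k : ComputableIn O (fun k : ℕ => 2 * k) := cin_mul (cin_const 2) cin_id
  have hswc : PC O sw := pc_not (pc_iff (cp_lt h (cp_e h2k) (cp_e (cin_add h2k (cin_const 1)))) hbc)
  have hπc : ComputableIn O (fun n : ℕ => π n) := by
    have hd : ComputableIn O (fun n : ℕ => n / 2) :=
      cin_prim₂ Primrec.nat_div cin_id (cin_const 2)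
    have hm : ComputableIn O (fun n : ℕ => n % 2) :=
      cin_prim₂ Primrec.nat_mod cin_id (cin_const 2)
    have h1 := cin_ite (pc_comp hswc hd) (cin_ite (pc_eq hm (cin_const 0))
      (cin_add cin_id (cin_const 1)) (cin_sub cin_id (cin_const 1))) (cin_id (α := ℕ))
    refine (congrArg (ComputableIn O) (funext fun n => ?_)).mpr h1
    rw [hπ]
    congr
  have hπs : π.symm = π := by
    ext n
    rw [Equiv.symm_apply_eq]
    -- involution
    by_cases h : sw (n / 2)
    · by_cases h2 : n % 2 = 0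
      · have h3 : π n = n + 1 := by rw [hπ, if_pos h, if_pos h2]
        have h4 : (n + 1) / 2 = n / 2 := by omega
        rw [h3, hπ, h4, if_pos h, if_neg (by omega)]
        omega
      · have h3 : π n = n - 1 := by rw [hπ, if_pos h, if_neg h2]
        have h4 : (n - 1) / 2 = n / 2 := by omega
        rw [h3, hπ, h4, if_pos h, if_pos (by omega)]
        omega
    · have h3 : π n = n := by rw [hπ, if_neg h]
      rw [h3, h3]
  have key : ∀ k, g (π (2 * k)) < g (π (2 * k + 1)) ↔ bit k := by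
    intro k
    have e1 : 2 * k / 2 = k := by omega
    have e2 : (2 * k + 1) / 2 = k := by omega
    have e3 : 2 * k % 2 = 0 := by omega
    have e4 : ¬ (2 * k + 1) % 2 = 0 := by omega
    by_cases hk : sw k
    · have h1 : π (2 * k) = 2 * k + 1 := by rw [hπ, e1, if_pos hk, if_pos e3]
      have h2 : π (2 * k + 1) = 2 * k := by rw [hπ, e2, if_pos hk, if_neg e4]; omega
      rw [h1, h2]
      have hne : g (2 * k) ≠ g (2 * k + 1) := fun h => by have := g.injective h; omega
      have h3 : ¬ (g (2 * k) < g (2 * k + 1) ↔ bit k) := hk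
      rcases lt_or_gt_of_ne hne with h4 | h4
      · have : ¬ bit k := fun hb => h3 ⟨fun _ => hb, fun _ => h4⟩
        exact ⟨fun h5 => absurd h4 (not_lt.2 h5.le), fun hb => absurd hb this⟩
      · have : bit k := by
          by_contra hb
          exact h3 ⟨fun h5 => absurd h4 (not_lt.2 h5.le), fun h5 => absurd h5 hb⟩
        exact ⟨fun _ => this, fun _ => h4⟩
    · have h1 : π (2 * k) = 2 * k := by rw [hπ, e1, if_neg hk]
      have h2 : π (2 * k + 1) = 2 * k + 1 := by rw [hπ, e2, if_neg hk]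
      rw [h1, h2]
      exact not_not.1 hk
  refine ⟨π.trans g, ⟨?_, ?_⟩, ?_⟩
  · have h1 : ComputableIn O (fun p : ℕ × ℕ => π (g.symm (g (π p.1) + g (π p.2)))) :=
      cin_comp hπc (cp_add h (cp_e (cin_comp hπc (cin_fst cin_id)))
        (cp_e (cin_comp hπc (cin_snd cin_id))))
    refine (congrArg (ComputableIn O) (funext fun p => ?_)).mpr h1
    show π.symm (g.symm _) = _
    rw [hπs]
    rfl
  · exact cp_lt h (cp_e (cin_comp hπc (cin_fst cin_id))) (cp_e (cin_comp hπc (cin_snd cin_id)))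
  · intro O' h'
    have hex : ∀ n, ∃ m, bit (Nat.pair n m) := fun n => ⟨f n, by
      simp only [hbit, Nat.unpair_pair]⟩
    have hP : PC O' (fun q : ℕ × ℕ => bit (Nat.pair q.1 q.2)) := by
      have hk : ComputableIn O' (fun q : ℕ × ℕ => 2 * Nat.pair q.1 q.2) :=
        cin_mul (cin_const 2) (cin_npair (cin_fst cin_id) (cin_snd cin_id))
      refine pc_of_eq (cp_lt h' (cp_e hk) (cp_e (cin_add hk (cin_const 1)))) fun q => ?_
      exact key _
    have h1 := cin_find (P := fun n m => bit (Nat.pair n m)) hP hex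
    refine (congrArg (ComputableIn O') (funext fun n => ?_)).mpr h1
    have h4 : ∀ m, bit (Nat.pair n m) ↔ f n = m := fun m => by
      simp only [hbit, Nat.unpair_pair]
    have h2 := (h4 _).1 (Nat.find_spec (hex n))
    rw [h2]
    exact find_inst _ _

end Pool.Agent.Q222.DS
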