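import Pool.Agent.Q222.DS.Diag

/-!
# Copies of `V` from copies of `V × ℤ` and conversely
-/

set_option autoImplicit false

namespace Pool.Agent.Q222.DS

open Encodable

universe u

variable {V : Type u} [AddCommGroup V] [LinearOrder V] [IsOrderedAddMonoid V]

/-- the copy of `V` inside `V × ℤ` -/
def VU (V : Type u) [AddCommGroup V] : AddSubgroup (V ×ₗ ℤ) where
  carrier := {x | (ofLex x).2 = 0}
  zero_mem' := rfl
  add_mem' := by
    intro a b ha hb
    show (ofLex a).2 + (ofLex b).2 = 0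
    rw [show (ofLex a).2 = 0 from ha, show (ofLex b).2 = 0 from hb, add_zero]
  neg_mem' := by
    intro a ha
    show -(ofLex a).2 = 0
    rw [show (ofLex a).2 = 0 from ha, neg_zero]

lemma mem_VU {x : V ×ₗ ℤ} : x ∈ VU V ↔ (ofLex x).2 = 0 := Iff.rfl

lemma snd_nsmul (n : ℕ) (x : V ×ₗ ℤ) : (ofLex (n • x)).2 = n * (ofLex x).2 := by
  induction n with
  | zero =>
    rw [zero_nsmul]
    show (0 : ℤ) = _
    simp
  | succ n ih =>
    rw [succ_nsmul]
    show (ofLex (n • x)).2 + (ofLex x).2 = _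
    rw [ih]
    push_cast
    ring

lemma fst_nsmul (n : ℕ) (x : V ×ₗ ℤ) : (ofLex (n • x)).1 = n • (ofLex x).1 := by
  induction n with
  | zero =>
    rw [zero_nsmul]
    show (0 : V) = _
    simp
  | succ n ih =>
    rw [succ_nsmul]
    show (ofLex (n • x)).1 + (ofLex x).1 = _
    rw [ih, succ_nsmul]

lemma good_VU (hdiv : ∀ n : ℕ, 0 < n → ∀ v : V, ∃ w, n • w = v) {v : V} (hv : v ≠ 0) :
    Good (VU V) (toLex ((0 : V), (1 : ℤ))) (toLex (v, (0 : ℤ))) where
  v0U := rfl
  v0ne := fun h => hv (congrArg (fun x : V ×ₗ ℤ => (ofLex x).1) h)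
  pure n hn x hx := by
    rw [mem_VU, snd_nsmul] at hx
    rw [mem_VU]
    rcases mul_eq_zero.1 hx with h | h
    · exact absurd h (by exact_mod_cast hn.ne')
    · exact h
  div n hn x hx := by
    obtain ⟨w, hw⟩ := hdiv n hn (ofLex x).1
    refine ⟨toLex (w, 0), rfl, ?_⟩
    apply ofLex.injective
    refine Prod.ext ?_ ?_
    · rw [fst_nsmul]; exact hw
    · rw [snd_nsmul, mem_VU.1 hx]; simp
  refSound p y k h := by
    intro hp
    rw [mem_VU] at hp
    rcases h with h | h
    · have h1 := congrArg (fun x : V ×ₗ ℤ => (ofLex x).2) h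
      simp only [ofLex_add, Prod.snd_add, snd_nsmul, hp] at h1
      simp only [ofLex_toLex, mul_one, zero_add] at h1
      push_cast at h1
      rcases lt_trichotomy (ofLex y).2 0 with h2 | h2 | h2
      · nlinarith
      · rw [h2] at h1; omega
      · nlinarith
    · have h1 := congrArg (fun x : V ×ₗ ℤ => (ofLex x).2) h
      simp only [ofLex_add, Prod.snd_add, snd_nsmul, hp] at h1
      simp only [ofLex_toLex, mul_one] at h1
      push_cast at h1
      rcases lt_trichotomy (ofLex y).2 0 with h2 | h2 | h2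
      · nlinarith
      · rw [h2] at h1; omega
      · nlinarith
  refCompl p hp := by
    rw [mem_VU] at hp
    rcases lt_or_gt_of_ne hp with h | h
    · -- negative
      obtain ⟨k, hk⟩ : ∃ k : ℕ, (ofLex p).2 = -((k : ℤ) + 1) :=
        ⟨(-(ofLex p).2 - 1).toNat, by omega⟩
      obtain ⟨w, hw⟩ := hdiv (k + 2) (by omega) (ofLex p).1
      refine ⟨toLex (w, 0), k, Or.inl ?_⟩
      apply ofLex.injective
      refine Prod.ext ?_ ?_
      · rw [fst_nsmul, ofLex_add, Prod.fst_add, fst_nsmul]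
        simpa using hw
      · rw [snd_nsmul, ofLex_add, Prod.snd_add, snd_nsmul, hk]
        simp
    · obtain ⟨k, hk⟩ : ∃ k : ℕ, (ofLex p).2 = (k : ℤ) + 1 :=
        ⟨((ofLex p).2 - 1).toNat, by omega⟩
      obtain ⟨w, hw⟩ := hdiv (k + 2) (by omega) (ofLex p).1
      refine ⟨toLex (w, 0), k, Or.inr ?_⟩
      apply ofLex.injective
      refine Prod.ext ?_ ?_
      · rw [ofLex_add, Prod.fst_add, fst_nsmul, fst_nsmul]
        simpa using hw
      · rw [ofLex_add, Prod.snd_add, snd_nsmul, snd_nsmul, hk]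
        simp

/-- from a copy of `V × ℤ` to a copy of `V` -/
theorem main_down [Nontrivial V] (hdiv : ∀ n : ℕ, 0 < n → ∀ v : V, ∃ w, n • w = v)
    {O : Set (ℕ →. ℕ)} {e : ℕ ≃ V ×ₗ ℤ} (h : Cop O e) : ∃ g : ℕ ≃ V, Cop O g := by
  classical
  obtain ⟨v, hv⟩ := exists_ne (0 : V)
  have hG := good_VU hdiv hv
  set r := theRun e (VU V) (toLex ((0 : V), (1 : ℤ))) (toLex (v, (0 : ℤ))) hG with hr
  obtain ⟨f, hfU, hfinj, hfsurj, hford, hfsum, hflong⟩ := r.limit hG.div e.surjective
  have hbij : Function.Bijective (fun n => (ofLex (f n)).1) := by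
    constructor
    · intro a b hab
      apply hfinj
      apply ofLex.injective
      exact Prod.ext hab ((mem_VU.1 (hfU a)).trans (mem_VU.1 (hfU b)).symm)
    · intro w
      obtain ⟨i, hi⟩ := hfsurj (toLex (w, 0)) rfl
      exact ⟨i, by show (ofLex (f i)).1 = w; rw [hi]; rfl⟩
  set g : ℕ ≃ V := Equiv.ofBijective _ hbij with hg
  have hfg : ∀ n, f n = toLex (g n, 0) := by
    intro n
    apply ofLex.injective
    exact Prod.ext rfl (mem_VU.1 (hfU n))
  have hlt : ∀ a b, f a < f b ↔ g a < g b := by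
    intro a b
    rw [hfg, hfg, Prod.Lex.toLex_lt_toLex]
    simp
  have hadd : ∀ a b c, f a + f b = f c ↔ g a + g b = g c := by
    intro a b c
    rw [hfg, hfg, hfg]
    constructor
    · intro h1
      exact congrArg (fun x : V ×ₗ ℤ => (ofLex x).1) h1
    · intro h1
      apply ofLex.injective
      exact Prod.ext h1 (by simp)
  -- computability
  have hst := cin_st hG h
  have hL : ComputableIn O (fun s : ℕ => (st e (VU V) (toLex ((0 : V), (1 : ℤ)))
      (toLex (v, (0 : ℤ))) hG s).2.length) := cin_len (cin_snd hst)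
  have hL' : ComputableIn O (fun s : ℕ => r.L s) := hL
  have hE : CP O e (fun p : ℕ × ℕ => r.E p.1 p.2) := by
    have h1 := cin_comp hst (cin_fst (cin_id (α := ℕ × ℕ)))
    exact cp_En (cin_snd h1) (cin_snd cin_id)
  refine ⟨g, ⟨?_, ?_⟩⟩
  · -- sums
    have hex : ∀ p : ℕ × ℕ, ∃ m : ℕ, p.1 < r.L m.unpair.1 ∧ p.2 < r.L m.unpair.1 ∧
        m.unpair.2 < r.L m.unpair.1 ∧
        r.E m.unpair.1 p.1 + r.E m.unpair.1 p.2 = r.E m.unpair.1 m.unpair.2 := by
      intro p
      set c := g.symm (g p.1 + g p.2) with hc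
      obtain ⟨s, hs1, hs2⟩ := hflong (p.1 + p.2 + c + 1)
      refine ⟨Nat.pair s c, ?_, ?_, ?_, ?_⟩
      · rw [Nat.unpair_pair]; show p.1 < r.L s; omega
      · rw [Nat.unpair_pair]; show p.2 < r.L s; omega
      · rw [Nat.unpair_pair]; show c < r.L s; omega
      · rw [Nat.unpair_pair]
        show r.E s p.1 + r.E s p.2 = r.E s c
        rw [hs2 _ (by omega), hs2 _ (by omega), hs2 _ (by omega), ← nsmul_add]
        congr 1
        rw [hadd, hc, Equiv.apply_symm_apply]
    have hP : PC O (fun q : (ℕ × ℕ) × ℕ => q.1.1 < r.L q.2.unpair.1 ∧ q.1.2 < r.L q.2.unpair.1 ∧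
        q.2.unpair.2 < r.L q.2.unpair.1 ∧
        r.E q.2.unpair.1 q.1.1 + r.E q.2.unpair.1 q.1.2 = r.E q.2.unpair.1 q.2.unpair.2) := by
      have ha : ComputableIn O (fun q : (ℕ × ℕ) × ℕ => q.1.1) := cin_fst (cin_fst cin_id)
      have hb : ComputableIn O (fun q : (ℕ × ℕ) × ℕ => q.1.2) := cin_snd (cin_fst cin_id)
      have hs : ComputableIn O (fun q : (ℕ × ℕ) × ℕ => q.2.unpair.1) := cin_un1 (cin_snd cin_id)
      have hc : ComputableIn O (fun q : (ℕ × ℕ) × ℕ => q.2.unpair.2) := cin_un2 (cin_snd cin_id)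
      have hLs := cin_comp hL' hs
      have hEa := cp_comp hE (cin_pair hs ha)
      have hEb := cp_comp hE (cin_pair hs hb)
      have hEc := cp_comp hE (cin_pair hs hc)
      exact pc_and (pc_lt ha hLs) (pc_and (pc_lt hb hLs) (pc_and (pc_lt hc hLs)
        (cp_eq (cp_add h hEa hEb) hEc)))
    have h1 := cin_find (P := fun (p : ℕ × ℕ) (m : ℕ) => p.1 < r.L m.unpair.1 ∧
        p.2 < r.L m.unpair.1 ∧ m.unpair.2 < r.L m.unpair.1 ∧
        r.E m.unpair.1 p.1 + r.E m.unpair.1 p.2 = r.E m.unpair.1 m.unpair.2) hP hex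
    have h2 := cin_un2 h1
    refine (congrArg (ComputableIn O) (funext fun p => ?_)).mpr h2
    obtain ⟨h3, h4, h5, h6⟩ := Nat.find_spec (hex p)
    have h7 := hfsum _ _ h3 _ h4 _ h5 h6
    rw [hadd] at h7
    rw [h7, Equiv.symm_apply_apply]
    congr 2
    exact find_inst _ _
  · -- order
    have hex : ∀ p : ℕ × ℕ, ∃ s : ℕ, p.1 < r.L s ∧ p.2 < r.L s := by
      intro p
      obtain ⟨s, hs1, _⟩ := hflong (p.1 + p.2 + 1)
      exact ⟨s, by omega, by omega⟩
    have hP : PC O (fun q : (ℕ × ℕ) × ℕ => q.1.1 < r.L q.2 ∧ q.1.2 < r.L q.2) := by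
      have ha : ComputableIn O (fun q : (ℕ × ℕ) × ℕ => q.1.1) := cin_fst (cin_fst cin_id)
      have hb : ComputableIn O (fun q : (ℕ × ℕ) × ℕ => q.1.2) := cin_snd (cin_fst cin_id)
      have hs : ComputableIn O (fun q : (ℕ × ℕ) × ℕ => q.2) := cin_snd cin_id
      have hLs := cin_comp hL' hs
      exact pc_and (pc_lt ha hLs) (pc_lt hb hLs)
    have h1 := cin_find (P := fun (p : ℕ × ℕ) (s : ℕ) => p.1 < r.L s ∧ p.2 < r.L s) hP hex
    have hEa := cp_comp hE (cin_pair h1 (cin_fst (cin_id (α := ℕ × ℕ))))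
    have hEb := cp_comp hE (cin_pair h1 (cin_snd (cin_id (α := ℕ × ℕ))))
    refine pc_of_eq (cp_lt h hEa hEb) fun p => ?_
    have h3 := Nat.find_spec (hex p)
    set s := Nat.find (hex p) with hs
    have hs' : ∀ (i1 : DecidablePred fun s : ℕ => p.1 < r.L s ∧ p.2 < r.L s),
        @Nat.find _ i1 (hex p) = s := fun i1 => find_inst _ _
    have goal' : r.E s p.1 < r.E s p.2 ↔ g p.1 < g p.2 := by
      rw [← hlt]
      constructor
      · intro h4
        exact hford s _ h3.1 _ h3.2 h4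
      · intro h4
        by_contra hc
        rcases lt_or_eq_of_le (not_lt.1 hc) with h5 | h5
        · exact absurd h4 (not_lt.2 (hford s _ h3.2 _ h3.1 h5).le)
        · by_cases hne : p.1 = p.2
          · rw [hne] at h4; exact lt_irrefl _ h4
          · exact r.distinct s _ h3.1 _ h3.2 hne h5.symm
    simpa only [hs'] using goal'

/-- coding of the integers -/
def zc (n : ℕ) : ℤ := if n % 2 = 0 then ((n / 2 : ℕ) : ℤ) else -((n / 2 : ℕ) : ℤ) - 1

/-- inverse coding -/
def cz (z : ℤ) : ℕ := if 0 ≤ z then 2 * z.toNat else 2 * (-z - 1).toNat + 1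

lemma zc_cz (z : ℤ) : zc (cz z) = z := by
  unfold zc cz
  by_cases h : 0 ≤ z
  · rw [if_pos h, if_pos (by omega)]
    omega
  · rw [if_neg h, if_neg (by omega)]
    omega

lemma cz_zc (n : ℕ) : cz (zc n) = n := by
  unfold zc cz
  by_cases h : n % 2 = 0
  · rw [if_pos h, if_pos (by omega)]
    omega
  · rw [if_neg h, if_neg (by omega)]
    omega

/-- sum of codes -/
def za (x y : ℕ) : ℕ :=
  if x % 2 = 0 then (if y % 2 = 0 then x + y else if y < x then x - y - 1 else y - x)
  else (if y % 2 = 0 then (if x < y then y - x - 1 else x - y) else x + y + 1)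

lemma zc_za (x y : ℕ) : zc (za x y) = zc x + zc y := by
  unfold zc za
  by_cases hx : x % 2 = 0 <;> by_cases hy : y % 2 = 0
  · simp only [hx, hy, if_true]
    rw [if_pos (by omega)]; omega
  · simp only [hx, hy, if_true, if_false]
    by_cases h : y < x
    · simp only [h, if_true]
      rw [if_pos (by omega)]; omega
    · simp only [h, if_false]
      rw [if_neg (by omega)]; omega
  · simp only [hx, hy, if_true, if_false]
    by_cases h : x < y
    · simp only [h, if_true]
      rw [if_pos (by omega)]; omega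
    · simp only [h, if_false]
      rw [if_neg (by omega)]; omega
  · simp only [hx, hy, if_false]
    rw [if_neg (by omega)]; omega

lemma zc_lt (x y : ℕ) : zc x < zc y ↔ (x % 2 = 0 ∧ y % 2 = 0 ∧ x < y) ∨
    (¬ x % 2 = 0 ∧ y % 2 = 0) ∨ (¬ x % 2 = 0 ∧ ¬ y % 2 = 0 ∧ y < x) := by
  unfold zc
  split_ifs <;> omega

/-- the copy of `V × ℤ` given by a copy of `V` -/
def up (g : ℕ ≃ V) : ℕ ≃ V ×ₗ ℤ where
  toFun n := toLex (g n.unpair.1, zc n.unpair.2)
  invFun x := Nat.pair (g.symm (ofLex x).1) (cz (ofLex x).2)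
  left_inv n := by simp [cz_zc]
  right_inv x := by simp [zc_cz]

lemma up_cop (g : ℕ ≃ V) (O : Set (ℕ →. ℕ)) : Cop O (up g) ↔ Cop O g := by
  classical
  constructor
  · intro h
    have hin : ∀ {α : Type} [Primcodable α] {f : α → ℕ}, ComputableIn O f →
        CP O (up g) (fun a => up g (Nat.pair (f a) 0)) :=
      fun hf => cp_e (cin_npair hf (cin_const 0))
    refine ⟨?_, ?_⟩
    · have h1 := cp_add h (hin (cin_fst (cin_id (α := ℕ × ℕ)))) (hin (cin_snd (cin_id (α := ℕ × ℕ))))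
      have h2 := cin_un1 h1
      refine (congrArg (ComputableIn O) (funext fun p => ?_)).mpr h2
      simp [up]
    · have h1 := cp_lt h (hin (cin_fst (cin_id (α := ℕ × ℕ)))) (hin (cin_snd (cin_id (α := ℕ × ℕ))))
      refine pc_of_eq h1 fun p => ?_
      simp [up, Prod.Lex.toLex_lt_toLex]
  · intro h
    have ha : ComputableIn O (fun p : ℕ × ℕ => p.1) := cin_fst cin_id
    have hb : ComputableIn O (fun p : ℕ × ℕ => p.2) := cin_snd cin_id
    have hm : ∀ {f : ℕ × ℕ → ℕ}, ComputableIn O f → ComputableIn O (fun a => f a % 2) :=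
      fun hf => cin_prim₂ Primrec.nat_mod hf (cin_const 2)
    have hx := cin_un2 ha
    have hy := cin_un2 hb
    have hxe := pc_eq (hm hx) (cin_const 0)
    have hye := pc_eq (hm hy) (cin_const 0)
    refine ⟨?_, ?_⟩
    · have hza : ComputableIn O (fun p : ℕ × ℕ => za p.1.unpair.2 p.2.unpair.2) := by
        have h1 := cin_ite hxe
          (cin_ite hye (cin_add hx hy) (cin_ite (pc_lt hy hx) (cin_sub (cin_sub hx hy) (cin_const 1))
            (cin_sub hy hx)))
          (cin_ite hye (cin_ite (pc_lt hx hy) (cin_sub (cin_sub hy hx) (cin_const 1))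
            (cin_sub hx hy)) (cin_add (cin_add hx hy) (cin_const 1)))
        refine (congrArg (ComputableIn O) (funext fun p => ?_)).mpr h1
        unfold za
        congr
      have h1 := cin_npair (cp_add h (cp_e (cin_un1 ha)) (cp_e (cin_un1 hb))) hza
      refine (congrArg (ComputableIn O) (funext fun p => ?_)).mpr h1
      rw [Equiv.symm_apply_eq]
      show _ = toLex (g (Nat.unpair _).1, zc (Nat.unpair _).2)
      rw [Nat.unpair_pair]
      simp only [Equiv.apply_symm_apply, zc_za]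
      rfl
    · have h1 : PC O (fun p : ℕ × ℕ => g p.1.unpair.1 < g p.2.unpair.1 ∨
          (g p.1.unpair.1 = g p.2.unpair.1 ∧ ((p.1.unpair.2 % 2 = 0 ∧ p.2.unpair.2 % 2 = 0 ∧
            p.1.unpair.2 < p.2.unpair.2) ∨ (¬ p.1.unpair.2 % 2 = 0 ∧ p.2.unpair.2 % 2 = 0) ∨
            (¬ p.1.unpair.2 % 2 = 0 ∧ ¬ p.2.unpair.2 % 2 = 0 ∧
              p.2.unpair.2 < p.1.unpair.2)))) := by
        refine pc_or (cp_lt h (cp_e (cin_un1 ha)) (cp_e (cin_un1 hb)))
          (pc_and (cp_eq (cp_e (cin_un1 ha)) (cp_e (cin_un1 hb))) ?_)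
        exact pc_or (pc_and hxe (pc_and hye (pc_lt hx hy)))
          (pc_or (pc_and (pc_not hxe) hye) (pc_and (pc_not hxe) (pc_and (pc_not hye) (pc_lt hy hx))))
      refine pc_of_eq h1 fun p => ?_
      rw [← zc_lt]
      show _ ↔ toLex (g p.1.unpair.1, zc p.1.unpair.2) < toLex (g p.2.unpair.1, zc p.2.unpair.2)
      rw [Prod.Lex.toLex_lt_toLex]

end Pool.Agent.Q222.DS
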